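import Pool.Agent.MP_a8995d_an.ZD.Step

/-! Induction over clusters of exponents. -/

namespace Pool.Agent.MP_a8995d_an.ZD

open PowerSeries Filter
open scoped Polynomial

namespace Cl

lemma scale {ι : Type} (S : Finset ι) (hS : S.Nonempty) (a : ι → ℝ) (e : ι → ℕ)
    (ha : ∀ x, 0 ≤ a x) :
    ∃ σ : ℝ, 0 ≤ σ ∧ (∀ x ∈ S, a x ≤ σ ^ (e x + 1)) ∧ ∃ x ∈ S, a x = σ ^ (e x + 1) := by
  obtain ⟨x, hx, h⟩ := S.exists_max_image (fun x => a x ^ (((e x + 1 : ℕ) : ℝ)⁻¹)) hS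
  refine ⟨_, Real.rpow_nonneg (ha x) _, fun y hy => ?_, x, hx,
    (Real.rpow_inv_natCast_pow (ha x) (Nat.succ_ne_zero _)).symm⟩
  rw [← Real.rpow_inv_natCast_pow (ha y) (Nat.succ_ne_zero (e y))]
  exact pow_le_pow_left₀ (Real.rpow_nonneg (ha y) _) (h y hy) _

lemma common {ι : Type} (I : Finset ι) (P : ι → ℝ → Prop)
    (hm : ∀ i δ δ', 0 < δ' → δ' ≤ δ → P i δ → P i δ') (h : ∀ i ∈ I, ∃ δ > 0, P i δ) :
    ∃ δ > 0, ∀ i ∈ I, P i δ := by
  classical
  induction I using Finset.induction_on with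
  | empty => exact ⟨1, one_pos, by simp⟩
  | insert a s _ ih =>
    obtain ⟨δ, h1, h2⟩ := ih fun i hi => h i (Finset.mem_insert_of_mem hi)
    obtain ⟨δ', h3, h4⟩ := h a (Finset.mem_insert_self _ _)
    refine ⟨min δ δ', lt_min h1 h3, fun i hi => ?_⟩
    rcases Finset.mem_insert.mp hi with rfl | hi
    · exact hm _ _ _ (lt_min h1 h3) (min_le_right _ _) h4
    · exact hm _ _ _ (lt_min h1 h3) (min_le_left _ _) (h2 i hi)

lemma rep {ι : Type} [Nonempty ι] (I : Finset ι) (r : ι → ι → Prop) (hr : Equivalence r) :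
    ∃ ρ : ι → ι, (∀ i ∈ I, ρ i ∈ I ∧ r i (ρ i)) ∧ ∀ i j, r i j → ρ i = ρ j := by
  refine ⟨fun i => Classical.epsilon fun a => a ∈ I ∧ r i a, fun i hi =>
    Classical.epsilon_spec (p := fun a => a ∈ I ∧ r i a) ⟨i, hi, hr.refl i⟩, fun i j h => ?_⟩
  exact congrArg Classical.epsilon (funext fun a =>
    propext ⟨fun x => ⟨x.1, hr.trans (hr.symm h) x.2⟩, fun x => ⟨x.1, hr.trans h x.2⟩⟩)

end Cl

open Cl

theorem cluster (hQ : QE) {κ : Type} (𝒰 : Ultrafilter κ) {N D : ℕ} (A : ℕ → ℝ)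
    (l : Fin N → κ → ℂ⟦X⟧)
    (hA : ∀ i j k m (B : ℝ), (∀ m' ≤ D, ‖coeff m' (l i k - l j k)‖ ≤ B) →
      ‖coeff m (l i k - l j k)‖ ≤ A m * B)
    (hfar : ∀ i j, i ≠ j → ∀ B : ℝ,
      ∀ᶠ k in (𝒰 : Filter κ), ∃ m ≤ D, B ≤ ‖coeff m (l i k - l j k)‖) (J : ℕ)
    (I : Finset (Fin N)) : ∀ i0 ∈ I, ∀ s : κ → ℝ, Tendsto s (𝒰 : Filter κ) atTop →
      (∀ᶠ k in (𝒰 : Filter κ), ∀ i ∈ I, ∀ m ≤ D, ‖coeff m (l i k - l i0 k)‖ ≤ s k ^ (m + 1)) →
      ∃ M, ∀ ε > 0, ∀ᶠ k in (𝒰 : Filter κ), ∀ p : Fin N → ℂ⟦X⟧,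
        (∀ i ∈ I, ∀ m, ‖coeff m (p i)‖ ≤ 1) →
        (∀ m < M, ‖coeff m (∑ i ∈ I, p i * Ex (l i k - l i0 k))‖ ≤ (s k ^ M)⁻¹) →
        ∀ i ∈ I, ∀ j < J, ‖coeff j (p i)‖ ≤ ε := by
  induction I using Finset.strongInduction with
  | H I ih =>
  intro i0 hi0 s hs hb
  by_cases hI : ∀ i ∈ I, i = i0
  · refine ⟨J + 1, fun ε hε => ?_⟩
    filter_upwards [hs.eventually_ge_atTop (max 1 ε⁻¹)] with k hk p _ h i hi j hj
    have h1 : I = {i0} := Finset.eq_singleton_iff_unique_mem.mpr ⟨hi0, hI⟩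
    have h2 := h j (by omega)
    rw [h1, Finset.sum_singleton, sub_self, Ex_zero, mul_one] at h2
    rw [hI i hi]
    have h3 : 1 ≤ s k := (le_max_left _ _).trans hk
    refine h2.trans (inv_le_of_inv_le₀ hε (((le_max_right _ _).trans hk).trans ?_))
    exact le_self_pow₀ h3 (Nat.succ_ne_zero _)
  push Not at hI
  obtain ⟨i2, hi2, hi20⟩ := hI
  choose σ hσ0 hσb hσe using fun k => scale (I ×ˢ Finset.range (D + 1))
    ⟨(i0, 0), by simp [hi0]⟩ (fun x => ‖coeff x.2 (l x.1 k - l i0 k)‖) Prod.snd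
    fun _ => norm_nonneg _
  have hσb' : ∀ k, ∀ i ∈ I, ∀ m ≤ D, ‖coeff m (l i k - l i0 k)‖ ≤ σ k ^ (m + 1) :=
    fun k i hi m hm => hσb k (i, m) (by simp [hi, hm])
  have hσ : Tendsto σ (𝒰 : Filter κ) atTop := by
    refine tendsto_atTop.mpr fun B => ?_
    filter_upwards [hfar i2 i0 hi20 (max B 1 ^ (D + 1))] with k ⟨m, hm, h⟩
    refine (le_max_left B 1).trans (le_of_pow_le_pow_left₀ (Nat.succ_ne_zero m) (hσ0 k) ?_)
    exact (pow_le_pow_right₀ (le_max_right _ _) (by omega)).trans (h.trans (hσb' k i2 hi2 m hm))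
  have hσ1 := hσ.eventually_gt_atTop 1
  have hσs : ∀ᶠ k in (𝒰 : Filter κ), σ k ≤ s k := by
    filter_upwards [hb, hs.eventually_ge_atTop 0] with k hk h0
    obtain ⟨⟨i, m⟩, hx, h⟩ := hσe k
    simp only [Finset.mem_product, Finset.mem_range] at hx
    exact le_of_pow_le_pow_left₀ (Nat.succ_ne_zero m) h0 (h ▸ hk i hx.1 m (by omega))
  set P : Fin N → Fin N → ℝ → Prop := fun i j δ => ∀ᶠ k in (𝒰 : Filter κ), ∀ m ≤ D,
    ‖coeff m (l i k - l j k)‖ ≤ σ k ^ (-δ) * σ k ^ (m + 1) with hP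
  have hPm : ∀ i j δ δ', δ' ≤ δ → P i j δ → P i j δ' := by
    intro i j δ δ' h h1
    filter_upwards [h1, hσ1] with k h1 h2 m hm
    refine (h1 m hm).trans (mul_le_mul_of_nonneg_right ?_ (pow_nonneg (hσ0 k) _))
    exact Real.rpow_le_rpow_of_exponent_le h2.le (by linarith)
  have hE : Equivalence fun i j => ∃ δ > 0, P i j δ := by
    refine ⟨fun i => ⟨1, one_pos, Eventually.of_forall fun k m _ => ?_⟩, ?_, ?_⟩
    · rw [sub_self, map_zero, norm_zero]
      exact mul_nonneg (Real.rpow_nonneg (hσ0 k) _) (pow_nonneg (hσ0 k) _)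
    · rintro i j ⟨δ, h, h1⟩
      refine ⟨δ, h, h1.mono fun k hk m hm => ?_⟩
      rw [← neg_sub, map_neg, norm_neg]
      exact hk m hm
    · rintro i j n ⟨δ, h, h1⟩ ⟨δ', h', h2⟩
      have h3 : 0 < min δ δ' / 2 := half_pos (lt_min h h')
      refine ⟨_, h3, ?_⟩
      filter_upwards [hPm _ _ _ _ (min_le_left δ δ') h1, hPm _ _ _ _ (min_le_right δ δ') h2, hσ1,
        ((tendsto_rpow_atTop h3).comp hσ).eventually_ge_atTop 2] with k h1 h2 h4 h5 m hm
      have h6 : σ k ^ (-(min δ δ' / 2)) = σ k ^ (min δ δ' / 2) * σ k ^ (-min δ δ') := by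
        rw [← Real.rpow_add (by linarith)]
        congr 1
        ring
      rw [← sub_add_sub_cancel _ (l j k), map_add, h6, mul_assoc]
      refine (norm_add_le _ _).trans ((add_le_add (h1 m hm) (h2 m hm)).trans ?_)
      rw [← two_mul]
      exact mul_le_mul_of_nonneg_right h5
        (mul_nonneg (Real.rpow_nonneg (hσ0 k) _) (pow_nonneg (hσ0 k) _))
  have : Nonempty (Fin N) := ⟨i0⟩
  obtain ⟨ρ, hρ, hρe⟩ := rep I _ hE
  obtain ⟨i1, hi1, hne⟩ : ∃ i1 ∈ I, ρ i1 ≠ ρ i0 := by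
    by_contra hc
    push Not at hc
    obtain ⟨δ, hδ, h⟩ := common I (fun i δ => P i i0 δ) (fun i δ δ' _ => hPm _ _ _ _) fun i hi =>
      hE.trans (hρ i hi).2 (hc i hi ▸ hE.symm (hρ i0 hi0).2)
    obtain ⟨k, h1, h2⟩ := (((eventually_all_finset I).mpr h).and hσ1).exists
    obtain ⟨⟨i, m⟩, hx, h3⟩ := hσe k
    simp only [Finset.mem_product, Finset.mem_range] at hx
    have h4 := h1 i hx.1 m (by omega)
    have h5 : σ k ^ (-δ) < 1 := Real.rpow_lt_one_of_one_lt_of_neg h2 (by linarith)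
    have h6 : 0 < σ k ^ (m + 1) := pow_pos (by linarith) _
    simp only at h3
    nlinarith
  have hΓ : ∀ a ∈ I.image ρ, a ∈ I ∧ ρ a = a := by
    intro a ha
    obtain ⟨i, hi, rfl⟩ := Finset.mem_image.mp ha
    exact ⟨(hρ i hi).1, (hρe _ _ (hρ i hi).2).symm⟩
  obtain ⟨δ, hδ, hδP⟩ := common I (fun i δ => P i (ρ i) δ) (fun i δ δ' _ => hPm _ _ _ _)
    fun i hi => (hρ i hi).2
  have hIH := fun a (ha : a ∈ I.image ρ) => ih (I.filter (ρ · = a))
    (Finset.filter_ssubset.mpr (by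
      by_cases h : ρ i0 = a
      · exact ⟨i1, hi1, fun h' => hne (h'.trans h.symm)⟩
      · exact ⟨i0, hi0, h⟩)) a (Finset.mem_filter.mpr (hΓ a ha)) σ hσ (by
      filter_upwards [(eventually_all_finset I).mpr fun i hi => hPm _ _ _ 0 hδ.le (hδP i hi)]
        with k hk i hi m hm
      obtain ⟨hi', rfl⟩ := Finset.mem_filter.mp hi
      simpa using hk i hi' m hm)
  choose! Ma hMa using hIH
  set M1 := (I.image ρ).sup Ma with hM1
  obtain ⟨r, hr⟩ := exists_nat_ge (max ((D : ℝ) + 2) ((D + 1) / δ))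
  have hr1 : D + 2 ≤ r := by exact_mod_cast (le_max_left _ _).trans hr
  have hr2 : (D : ℝ) + 1 ≤ r * δ := (div_le_iff₀ hδ).mp ((le_max_right _ _).trans hr)
  obtain ⟨M2, K, c, hc, hq⟩ := hQ N ((r + 1) * (3 * M1 + 1) + 1) D
  set d := (r + 1) * (3 * M1 + 1) + 1 with hd
  set v : κ → ℝ := fun k => σ k ^ (((r + 1 : ℕ) : ℝ)⁻¹) with hv
  have hvσ : ∀ k, v k ^ (r + 1) = σ k := fun k =>
    Real.rpow_inv_natCast_pow (hσ0 k) (Nat.succ_ne_zero _)
  have hvt : Tendsto v (𝒰 : Filter κ) atTop :=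
    (tendsto_rpow_atTop (by positivity)).comp hσ
  have hθ : (0 : ℝ) < ((K : ℝ) + 1)⁻¹ := by positivity
  have hsep : ∀ᶠ k in (𝒰 : Filter κ), ∀ a ∈ I.image ρ, ∀ b ∈ I.image ρ, a ≠ b → ∃ m ≤ D,
      σ k ^ (-((K : ℝ) + 1)⁻¹) * σ k ^ (m + 1) ≤ ‖coeff m (l a k - l b k)‖ := by
    simp only [eventually_all_finset]
    intro a ha b hb'
    by_cases hab : a = b
    · simp [hab]
    have h1 : ¬ P a b ((K : ℝ) + 1)⁻¹ := fun h =>
      hab ((hΓ a ha).2.symm.trans ((hρe a b ⟨_, hθ, h⟩).trans (hΓ b hb').2))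
    filter_upwards [Ultrafilter.eventually_not.mpr h1] with k hk _
    push Not at hk
    obtain ⟨m, hm, h⟩ := hk
    exact ⟨m, hm, h.le⟩
  refine ⟨M2 + d, fun ε hε => ?_⟩
  filter_upwards [hσ1, hσs, hsep, (eventually_all_finset I).mpr hδP,
    (eventually_all_finset _).mpr fun a ha => hMa a ha ε hε, hvt.eventually_ge_atTop 1,
    hvt.eventually_ge_atTop (M1 * (1 + N * (M2 * (N * M2))) / c),
    (eventually_all_finset (Finset.range (M2 + M1))).mpr fun m _ => hvt.eventually_ge_atTop (A m)]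
    with k h1 h2 h3 h4 h5 h6 h7 h8 p hp hrel i hi
  have h0 : 0 < σ k := by linarith
  have hst := step hc hq I ρ (fun i => l i k) p i0 (v k) (σ k ^ (-((K : ℝ) + 1)⁻¹)) r M1 h6 hr1
    (fun i hi => (hρ i hi).1) (by rw [hvσ]; exact hσb' k)
    (fun i hi m hm _ => by
      rw [hvσ]
      refine (hA i i0 k m (σ k ^ (D + 1)) fun m' hm' =>
        (hσb' k i hi m' hm').trans (pow_le_pow_right₀ h1.le (by omega))).trans ?_
      exact mul_le_mul_of_nonneg_right (h8 m (Finset.mem_range.mpr hm)) (by positivity))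
    (fun i hi m hm => by
      refine (h4 i hi m hm).trans ?_
      have e1 : v k ^ (m + 1) ≤ σ k ^ δ := by
        have e2 : σ k ^ δ = v k ^ (((r + 1 : ℕ) : ℝ) * δ) := by
          rw [Real.rpow_mul (by linarith), Real.rpow_natCast, hvσ]
        rw [e2, ← Real.rpow_natCast]
        refine Real.rpow_le_rpow_of_exponent_le h6 ?_
        have : (m : ℝ) ≤ D := by exact_mod_cast hm
        push_cast
        nlinarith
      rw [Real.rpow_neg h0.le, inv_mul_le_iff₀ (Real.rpow_pos_of_pos h0 _)]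
      calc σ k ^ (m + 1) = v k ^ (m + 1) * (v k ^ r) ^ (m + 1) := by
            rw [← mul_pow, ← pow_succ', hvσ]
        _ ≤ _ := mul_le_mul_of_nonneg_right e1 (by positivity))
    (Real.rpow_pos_of_pos h0 _) (Real.rpow_le_one_of_one_le_of_nonpos h1.le (by linarith))
    (by
      rw [hvσ, ← Real.rpow_natCast, ← Real.rpow_mul h0.le, ← Real.rpow_neg_one]
      refine Real.rpow_le_rpow_of_exponent_le h1.le ?_
      rw [neg_mul, neg_le_neg_iff, inv_mul_le_iff₀ (by positivity)]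
      linarith)
    (by rw [hvσ]; exact h3) hp
    (fun m hm => (hrel m (by omega)).trans (inv_anti₀ (by positivity) (by
      have e1 : v k ≤ s k := ((le_self_pow₀ h6 (Nat.succ_ne_zero r)).trans (hvσ k).le).trans h2
      exact (pow_le_pow_left₀ (by linarith) e1 d).trans
        (pow_le_pow_right₀ (by linarith) (by omega)))))
    (by rw [div_le_iff₀ hc] at h7; linarith) le_rfl
  have ha := Finset.mem_image_of_mem ρ hi
  have hle : Ma (ρ i) ≤ M1 := Finset.le_sup (f := Ma) ha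
  refine h5 _ ha p (fun i hi => hp i (Finset.mem_filter.mp hi).1) (fun m hm => ?_) i
    (Finset.mem_filter.mpr ⟨hi, rfl⟩)
  refine (hst _ ha m (by omega)).trans ?_
  rw [hvσ]
  exact inv_anti₀ (by positivity) (pow_le_pow_right₀ h1.le hle)

theorem clu (hQ : QE) : Clu := by
  intro κ 𝒰 N D A l hA hfar J
  rcases N with _ | N
  · exact ⟨0, fun ε _ => Eventually.of_forall fun k p _ _ i => i.elim0⟩
  by_cases h : ∀ i : Fin (N + 1), i = 0
  · refine ⟨J, fun ε hε => Eventually.of_forall fun k p _ hr i j hj => ?_⟩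
    have h1 : (Finset.univ : Finset (Fin (N + 1))) = {i} :=
      Finset.eq_singleton_iff_unique_mem.mpr ⟨Finset.mem_univ _, fun x _ => (h x).trans (h i).symm⟩
    have h2 : p i = p i * Ex (l i k) * Ex (-l i k) := by
      rw [mul_assoc, ← Ex_add, add_neg_cancel, Ex_zero, mul_one]
    rw [h1] at hr
    simp only [Finset.sum_singleton] at hr
    rw [h2, coeff_mul_range, Finset.sum_eq_zero, norm_zero]
    · exact hε.le
    · intro m hm
      rw [hr m (by have := Finset.mem_range.mp hm; omega), zero_mul]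
  push Not at h
  obtain ⟨i2, hi2⟩ := h
  choose σ hσ0 hσb hσe using fun k => scale (Finset.univ ×ˢ Finset.range (D + 1))
    ⟨((0 : Fin (N + 1)), 0), by simp⟩ (fun x => ‖coeff x.2 (l x.1 k - l 0 k)‖) Prod.snd
    fun _ => norm_nonneg _
  have hσb' : ∀ k i, ∀ m ≤ D, ‖coeff m (l i k - l 0 k)‖ ≤ σ k ^ (m + 1) :=
    fun k i m hm => hσb k (i, m) (by simp [hm])
  have hσ : Tendsto σ (𝒰 : Filter κ) atTop := by
    refine tendsto_atTop.mpr fun B => ?_
    filter_upwards [hfar i2 0 hi2 (max B 1 ^ (D + 1))] with k ⟨m, hm, h⟩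
    refine (le_max_left B 1).trans (le_of_pow_le_pow_left₀ (Nat.succ_ne_zero m) (hσ0 k) ?_)
    exact (pow_le_pow_right₀ (le_max_right _ _) (by omega)).trans (h.trans (hσb' k i2 m hm))
  obtain ⟨M, hM⟩ := cluster hQ 𝒰 A l hA hfar J Finset.univ 0 (Finset.mem_univ _) σ hσ
    (Eventually.of_forall fun k i _ => hσb' k i)
  refine ⟨M, fun ε hε => (hM ε hε).mono fun k hk p hp hr i =>
    hk p (fun i _ => hp i) (fun m hm => ?_) i (Finset.mem_univ _)⟩
  have h2 : ∑ i, p i * Ex (l i k - l 0 k) = (∑ i, p i * Ex (l i k)) * Ex (-l 0 k) := by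
    rw [Finset.sum_mul]
    exact Finset.sum_congr rfl fun i _ => by rw [mul_assoc, ← Ex_add, sub_eq_add_neg]
  rw [h2, coeff_mul_range, Finset.sum_eq_zero, norm_zero]
  · exact inv_nonneg.mpr (pow_nonneg (hσ0 k) _)
  · intro j hj
    rw [hr j (by have := Finset.mem_range.mp hj; omega), zero_mul]

end Pool.Agent.MP_a8995d_an.ZD
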