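import Pool.Agent.MP_a8995d_an.ZD.Main
import Pool.Agent.MP_a8995d_an.K9.All

/-! The case of the single polynomial `1 + X`. -/

namespace Pool.Agent.MP_a8995d_an.ZD

open Polynomial

/-- The question of the problem file as a special case. -/
theorem q1 (w : ℕ → ℝ) (hw : ∀ n, 1 ≤ n → 0 < w n) (T : L2 →L[ℂ] L2)
    (hT : IsBackwardShift basisVec w T) : MultiplyRecurrent (1 + T) := by
  refine K9.multiplyRecurrent_of_mixingAllOrders fun N U hU => ?_
  obtain ⟨R, hR⟩ := forward basisVec K9.dense_basisVec w hw T hT.1 hT.2 1 (fun _ => 1 + X)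
    (by simp) (fun a b c h => by
      have h1 := congrArg (eval 0) h
      have h2 := congrArg (eval 1) h
      simp [one_add_one_eq_two] at h1 h2
      rw [← h1, one_mul] at h2
      have h3 : (2 : ℕ) ^ a 0 = 2 ^ b 0 := by exact_mod_cast h2
      funext l
      rw [Subsingleton.elim l 0]
      exact Nat.pow_right_injective le_rfl h3) N U hU
  refine ⟨R, fun n hn => ?_⟩
  obtain ⟨x, hx⟩ := hR (fun i _ => n i) fun i j hij =>
    ⟨0, (lt_or_gt_of_ne hij).imp (hn i j) (hn j i)⟩
  exact ⟨x, fun i => by simpa using hx i⟩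

end Pool.Agent.MP_a8995d_an.ZD
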