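import Pool.Agent.MP_a8995d_an.ZD.Spec

/-! Logarithmic derivatives of multiplicatively independent polynomials are linearly independent,
with a bound that uses finitely many coefficients. -/

namespace Pool.Agent.MP_a8995d_an.ZD

open PowerSeries Filter
open scoped Polynomial

namespace IndL

lemma res (f : ℂ[X]) (hf : f ≠ 0) (r : ℂ) (μ : ℂ⟦X⟧) (h : d⁄dX ℂ (f : ℂ⟦X⟧) = μ * f) :
    ∃ g k : ℂ[X], g.eval r ≠ 0 ∧ ((Polynomial.X - Polynomial.C r : ℂ[X]) : ℂ⟦X⟧) * μ * g =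
      ((Polynomial.C (f.rootMultiplicity r : ℂ) * g + (Polynomial.X - Polynomial.C r) * k : ℂ[X]) :
        ℂ⟦X⟧) := by
  obtain ⟨g, h1, h2⟩ := Polynomial.exists_eq_pow_rootMultiplicity_mul_and_not_dvd f hf r
  generalize f.rootMultiplicity r = m at h1 ⊢
  refine ⟨g, Polynomial.derivative g, fun e => h2 (Polynomial.dvd_iff_isRoot.2 e), ?_⟩
  have e : (Polynomial.X - Polynomial.C r) * Polynomial.derivative f =
      (Polynomial.X - Polynomial.C r) ^ m * (Polynomial.C (m : ℂ) * g +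
        (Polynomial.X - Polynomial.C r) * Polynomial.derivative g) := by
    rw [h1, Polynomial.derivative_mul, Polynomial.derivative_X_sub_C_pow]
    rcases m with _ | m
    · simp
    · simp only [Nat.add_sub_cancel, map_natCast]
      ring
  have n0 : (((Polynomial.X - Polynomial.C r) ^ m : ℂ[X]) : ℂ⟦X⟧) ≠ 0 := fun k =>
    pow_ne_zero m (Polynomial.X_sub_C_ne_zero r) (Polynomial.coe_eq_zero_iff.1 k)
  refine mul_left_cancel₀ n0 ?_
  rw [← Polynomial.coe_mul, ← e, Polynomial.coe_mul, ← derivative_coe, h]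
  conv_rhs => rw [h1, Polynomial.coe_mul]
  ring

lemma sum_mult {d : ℕ} (f : Fin d → ℂ[X]) (hf : ∀ l, f l ≠ 0) (μ : Fin d → ℂ⟦X⟧)
    (h : ∀ l, d⁄dX ℂ (f l : ℂ⟦X⟧) = μ l * f l) (a : Fin d → ℂ) (ha : ∑ l, a l • μ l = 0) (r : ℂ) :
    ∑ l, a l * ((f l).rootMultiplicity r : ℂ) = 0 := by
  choose g k h1 h2 using fun l => res (f l) (hf l) r (μ l) (h l)
  choose G hG using fun l => Finset.dvd_prod_of_mem g (Finset.mem_univ l)
  have e : ((∑ l, Polynomial.C (a l) * (Polynomial.C ((f l).rootMultiplicity r : ℂ) * ∏ l, g l +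
      (Polynomial.X - Polynomial.C r) * k l * G l) : ℂ[X]) : ℂ⟦X⟧) = 0 := by
    have e1 : ∀ l, ((Polynomial.C (a l) * (Polynomial.C ((f l).rootMultiplicity r : ℂ) * ∏ l, g l +
        (Polynomial.X - Polynomial.C r) * k l * G l) : ℂ[X]) : ℂ⟦X⟧) =
        ((Polynomial.X - Polynomial.C r : ℂ[X]) : ℂ⟦X⟧) * ((∏ l, g l : ℂ[X]) : ℂ⟦X⟧) *
          (a l • μ l) := fun l => by
      rw [hG l, ← mul_assoc (Polynomial.C _), ← add_mul, Polynomial.coe_mul, Polynomial.coe_mul,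
        ← h2 l, Polynomial.coe_mul, Polynomial.coe_C, smul_eq_C_mul]
      ring
    rw [← Polynomial.coeToPowerSeries.ringHom_apply, map_sum]
    simp only [Polynomial.coeToPowerSeries.ringHom_apply, e1]
    rw [← Finset.mul_sum, ha, mul_zero]
  have e2 := congrArg (Polynomial.eval r) (Polynomial.coe_eq_zero_iff.1 e)
  simp only [Polynomial.eval_finsetSum, Polynomial.eval_mul, Polynomial.eval_add,
    Polynomial.eval_C, Polynomial.eval_sub, Polynomial.eval_X, sub_self, zero_mul, add_zero,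
    Polynomial.eval_zero, ← mul_assoc, ← Finset.sum_mul, Polynomial.eval_prod] at e2
  exact (mul_eq_zero.1 e2).resolve_right (Finset.prod_ne_zero_iff.2 fun l _ => h1 l)

lemma roots_pp {d : ℕ} (f : Fin d → ℂ[X]) (hf : ∀ l, f l ≠ 0) (a : Fin d → ℕ) (r : ℂ) :
    (∏ l, f l ^ a l).roots.count r = ∑ l, a l * (f l).rootMultiplicity r := by
  rw [Polynomial.roots_prod _ _ (Finset.prod_ne_zero_iff.2 fun l _ => pow_ne_zero _ (hf l)),
    Multiset.count_bind]
  simp only [Polynomial.roots_pow, Multiset.count_nsmul, Polynomial.count_roots]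
  rfl

lemma indep {d : ℕ} (f : Fin d → ℂ[X]) (hf : ∀ l, f l ≠ 0)
    (h : ∀ (a b : Fin d → ℕ) (c : ℂ), ∏ l, f l ^ a l = Polynomial.C c * ∏ l, f l ^ b l → a = b)
    (a : Fin d → ℂ) (ha : ∀ r, ∑ l, a l * ((f l).rootMultiplicity r : ℂ) = 0) : a = 0 := by
  have hp : ∏ l, f l ≠ 0 := Finset.prod_ne_zero_iff.2 fun l _ => hf l
  have hz : LinearIndependent ℤ fun (l : Fin d) (r : (∏ l, f l).roots.toFinset) =>
      ((f l).rootMultiplicity r.1 : ℤ) := by
    refine Fintype.linearIndependent_iff.2 fun b hb => ?_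
    have e : ∀ r : ℂ, ∑ l, b l * ((f l).rootMultiplicity r : ℤ) = 0 := fun r => by
      by_cases hr : r ∈ (∏ l, f l).roots.toFinset
      · simpa using congrFun hb ⟨r, hr⟩
      · refine Finset.sum_eq_zero fun l _ => ?_
        rw [Polynomial.rootMultiplicity_eq_zero fun k => hr ?_, Nat.cast_zero, mul_zero]
        rw [Multiset.mem_toFinset, Polynomial.mem_roots hp]
        exact k.dvd (Finset.dvd_prod_of_mem f (Finset.mem_univ l))
    have e2 : (∏ l, f l ^ (b l).toNat).roots = (∏ l, f l ^ (-b l).toNat).roots := by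
      ext r
      rw [roots_pp f hf, roots_pp f hf]
      zify
      rw [← sub_eq_zero, ← Finset.sum_sub_distrib, ← e r]
      refine Finset.sum_congr rfl fun l _ => ?_
      rw [← sub_mul, Int.toNat_sub_toNat_neg]
    have n2 : (∏ l, f l ^ (-b l).toNat).leadingCoeff ≠ 0 := Polynomial.leadingCoeff_ne_zero.2
      (Finset.prod_ne_zero_iff.2 fun l _ => pow_ne_zero _ (hf l))
    have s1 := (IsAlgClosed.splits (∏ l, f l ^ (b l).toNat)).eq_prod_roots
    have s2 := (IsAlgClosed.splits (∏ l, f l ^ (-b l).toNat)).eq_prod_roots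
    have e3 := h (fun l => (b l).toNat) (fun l => (-b l).toNat)
      ((∏ l, f l ^ (b l).toNat).leadingCoeff / (∏ l, f l ^ (-b l).toNat).leadingCoeff) (by
        conv_rhs => arg 2; rw [s2]
        rw [← mul_assoc, ← Polynomial.C_mul, div_mul_cancel₀ _ n2, ← e2]
        exact s1)
    intro l
    have := congrFun e3 l
    omega
  have hc := (linearIndependent_algebraMap_comp_iff (S := ℂ)).2 hz
  funext l
  refine Fintype.linearIndependent_iff.1 hc a ?_ l
  funext r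
  simpa using ha r

lemma bound {d : ℕ} (μ : Fin d → ℂ⟦X⟧) (h : ∀ a : Fin d → ℂ, ∑ l, a l • μ l = 0 → a = 0) :
    ∃ (D : ℕ) (B : ℝ), 0 ≤ B ∧ ∀ (a : Fin d → ℂ) (t : ℝ),
      (∀ m ≤ D, ‖coeff m (∑ l, a l • μ l)‖ ≤ t) → ∀ l, ‖a l‖ ≤ B * t := by
  let Φ : ∀ D : ℕ, (Fin d → ℂ) →ₗ[ℂ] (Fin (D + 1) → ℂ) := fun D =>
    LinearMap.pi fun m => (coeff (m : ℕ)).comp (Fintype.linearCombination ℂ μ)
  have hΦ : ∀ D a m, Φ D a m = coeff (m : ℕ) (∑ l, a l • μ l) := fun D a m => rfl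
  have mem : ∀ D a, a ∈ LinearMap.ker (Φ D) ↔ ∀ m ≤ D, coeff m (∑ l, a l • μ l) = 0 :=
    fun D a => ⟨fun k m hm => congrFun k ⟨m, Nat.lt_succ_of_le hm⟩,
      fun k => funext fun m => k m (Nat.lt_succ_iff.1 m.2)⟩
  obtain ⟨_, ⟨D, rfl⟩, hD⟩ := wellFounded_lt.has_min (Set.range fun D => LinearMap.ker (Φ D))
    ⟨_, 0, rfl⟩
  have k0 : LinearMap.ker (Φ D) = ⊥ := by
    refine (Submodule.eq_bot_iff _).2 fun a ha => h a (PowerSeries.ext fun m => ?_)
    have le : LinearMap.ker (Φ (max D m)) ≤ LinearMap.ker (Φ D) := fun b hb =>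
      (mem D b).2 fun j hj => (mem _ b).1 hb j (hj.trans (le_max_left _ _))
    have e := le.eq_of_not_lt (hD _ ⟨_, rfl⟩)
    rw [← e] at ha
    exact (mem _ a).1 ha m (le_max_right _ _)
  obtain ⟨K, -, hK⟩ := (Φ D).exists_antilipschitzWith k0
  refine ⟨D, K, K.2, fun a t ht l => (norm_le_pi_norm a l).trans
    ((ZeroHomClass.bound_of_antilipschitz (Φ D) hK a).trans ?_)⟩
  refine mul_le_mul_of_nonneg_left ((pi_norm_le_iff_of_nonempty _).2 fun m => ?_) K.2
  exact ht m (Nat.lt_succ_iff.1 m.2)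

end IndL

open IndL in
theorem ind : Ind := by
  intro d f h0 h
  have hf : ∀ l, f l ≠ 0 := fun l e => h0 l (by rw [e, Polynomial.eval_zero])
  have c0 : ∀ l, coeff 0 (f l : ℂ⟦X⟧) = (f l).eval 0 := fun l => by
    rw [Polynomial.coeff_coe, Polynomial.coeff_zero_eq_eval_zero]
  have hd : ∀ l, d⁄dX ℂ (f l : ℂ⟦X⟧) = d⁄dX ℂ (f l : ℂ⟦X⟧) * (f l : ℂ⟦X⟧)⁻¹ * f l := fun l => by
    rw [mul_assoc, PowerSeries.inv_mul_cancel _ (by
      rw [← coeff_zero_eq_constantCoeff_apply, c0]; exact h0 l), mul_one]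
  obtain ⟨D, B, h1, h2⟩ := bound (fun l => d⁄dX ℂ (f l : ℂ⟦X⟧) * (f l : ℂ⟦X⟧)⁻¹) fun a ha =>
    indep f hf h a (sum_mult f hf _ hd a ha)
  exact ⟨_, D, B, h1, fun l => by rw [← c0]; exact Ex_uniq (hd l), h2⟩

end Pool.Agent.MP_a8995d_an.ZD
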