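import Pool.Agent.MP_a8995d_an.ZD.Spec

/-! Finite-dimensional duality: small relations give approximate solutions. -/

namespace Pool.Agent.MP_a8995d_an.ZD

open PowerSeries Filter
open scoped Polynomial

namespace Lin

lemma sum_cut (M n : ℕ) (h : n < M) (f : ℕ → ℂ) :
    ∑ c : Fin M, (if (c : ℕ) ≤ n then f c else 0) = ∑ c ∈ Finset.range (n + 1), f c := by
  rw [Fin.sum_univ_eq_sum_range (fun c => if c ≤ n then f c else 0) M, ← Finset.sum_filter]
  refine Finset.sum_congr ?_ fun _ _ => rfl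
  ext c
  simp only [Finset.mem_filter, Finset.mem_range]
  omega

lemma sum_le (M J : ℕ) (f : ℕ → ℝ) (h0 : ∀ c, 0 ≤ f c) (h : ∀ c, J ≤ c → f c = 0) :
    ∑ c : Fin M, f c ≤ ∑ c ∈ Finset.range J, f c := by
  rw [Fin.sum_univ_eq_sum_range f M]
  rcases le_total M J with k | k
  · exact Finset.sum_le_sum_of_subset_of_nonneg (Finset.range_mono k) fun c _ _ => h0 c
  · exact (Finset.sum_subset (Finset.range_mono k) fun c _ hc =>
      h c (not_lt.1 fun k => hc (Finset.mem_range.2 k))).ge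

end Lin

theorem lin : Lin := by
  intro N M J G ε u hε hR hu
  let a : Fin M → EuclideanSpace ℂ (Fin N × Fin M) := fun n =>
    WithLp.toLp 2 fun x => if (x.2 : ℕ) ≤ n then coeff (n - x.2) (G x.1) else 0
  let u' : EuclideanSpace ℂ (Fin N × Fin M) := WithLp.toLp 2 fun x => u x.1 x.2
  obtain ⟨y, hy, r, hr, e⟩ := (Submodule.span ℂ (Set.range a)).exists_add_mem_mem_orthogonal u'
  obtain ⟨z, hz⟩ := (Submodule.mem_span_range_iff_exists_fun ℂ).1 hy
  have hS : 0 ≤ ∑ i, ∑ c ∈ Finset.range J, ‖u i c‖ := by positivity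
  have key : ‖r‖ ≤ ε * ∑ i, ∑ c ∈ Finset.range J, ‖u i c‖ := by
    rcases (norm_nonneg r).eq_or_lt with h0 | h0
    · rw [← h0]
      positivity
    let ρ : Fin N → ℕ → ℂ := fun i c => if h : c < M then starRingEnd ℂ (r (i, ⟨c, h⟩)) else 0
    have hρ : ∀ (i : Fin N) (c : Fin M), ρ i c = starRingEnd ℂ (r (i, c)) := fun i c =>
      dif_pos c.2
    have hn : ‖((‖r‖ : ℝ) : ℂ)‖ = ‖r‖ := by simp
    have h1 := hR (fun i => mk fun c => ρ i c / (‖r‖ : ℝ)) (fun i m => by
      rw [coeff_mk, norm_div, hn, div_le_one h0]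
      by_cases h : m < M
      · rw [hρ i ⟨m, h⟩, Complex.norm_conj]
        exact PiLp.norm_apply_le r _
      · simp [ρ, h]) (fun n hn' => by
      have h2 := (Submodule.mem_orthogonal' _ r).1 hr (a ⟨n, hn'⟩)
        (Submodule.subset_span ⟨_, rfl⟩)
      rw [PiLp.inner_apply, Fintype.sum_prod_type] at h2
      rw [map_sum, ← zero_div ((‖r‖ : ℝ) : ℂ), ← h2, Finset.sum_div]
      refine Finset.sum_congr rfl fun i _ => ?_
      rw [coeff_mul_range, ← Lin.sum_cut M n hn', Finset.sum_div]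
      refine Finset.sum_congr rfl fun c _ => ?_
      rw [coeff_mk, hρ, RCLike.inner_apply]
      simp only [a]
      split_ifs
      · ring
      · simp)
    have h3 : inner ℂ r u' = ((‖r‖ ^ 2 : ℝ) : ℂ) := by
      rw [e, inner_add_right, (Submodule.mem_orthogonal' _ r).1 hr y hy, zero_add,
        inner_self_eq_norm_sq_to_K]
      simp
    have h4 : ‖inner ℂ r u'‖ ≤ ε * ‖r‖ * ∑ i, ∑ c ∈ Finset.range J, ‖u i c‖ := by
      rw [PiLp.inner_apply, Fintype.sum_prod_type, Finset.mul_sum]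
      refine norm_sum_le_of_le _ fun i _ => ?_
      refine le_trans ?_ (mul_le_mul_of_nonneg_left (Lin.sum_le M J (fun c => ‖u i c‖)
        (fun _ => norm_nonneg _) fun c h => by rw [hu i c h, norm_zero]) (by positivity))
      rw [Finset.mul_sum]
      refine norm_sum_le_of_le _ fun c _ => ?_
      rw [RCLike.inner_apply, ← hρ, norm_mul, mul_comm]
      show ‖ρ i c‖ * ‖u i c‖ ≤ _
      rcases lt_or_ge (c : ℕ) J with h | h
      · have h5 := h1 i c h
        rw [coeff_mk, norm_div, hn, div_le_iff₀ h0] at h5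
        exact mul_le_mul_of_nonneg_right h5 (norm_nonneg _)
      · simp [hu i c h]
    rw [h3, Complex.norm_real, Real.norm_of_nonneg (sq_nonneg _)] at h4
    exact le_of_mul_le_mul_left (by nlinarith) h0
  refine ⟨fun n => if h : n < M then z ⟨n, h⟩ else 0, fun i c hc => le_trans ?_ key⟩
  have h6 : u i c = y (i, ⟨c, hc⟩) + r (i, ⟨c, hc⟩) := congrArg (fun v => v (i, ⟨c, hc⟩)) e
  have h7 : y (i, ⟨c, hc⟩) = ∑ n ∈ Finset.range M,
      if c ≤ n then (if h : n < M then z ⟨n, h⟩ else 0) * coeff (n - c) (G i) else 0 := by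
    rw [← hz, ← Fin.sum_univ_eq_sum_range (fun n => if c ≤ n then
      (if h : n < M then z ⟨n, h⟩ else 0) * coeff (n - c) (G i) else 0) M]
    simp [a]
    rfl
  rw [← h7, h6, sub_add_cancel_left, norm_neg]
  exact PiLp.norm_apply_le r _

end Pool.Agent.MP_a8995d_an.ZD
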