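import Pool.Agent.MP_a8995d_an.ZD.Spec

/-! A lower bound for the operator `Q ↦ Q' + g Q` on polynomials. -/

namespace Pool.Agent.MP_a8995d_an.ZD

open PowerSeries Filter
open scoped Polynomial

namespace LowL

lemma coef_le (p : ℂ[X]) {D : ℕ} (h : p.natDegree ≤ D) (a : ℕ) :
    ‖p.coeff a‖ ≤ 2 ^ D * p.mahlerMeasure := by
  refine (p.norm_coeff_le_choose_mul_mahlerMeasure a).trans
    (mul_le_mul_of_nonneg_right ?_ p.mahlerMeasure_nonneg)
  exact_mod_cast (Nat.choose_le_two_pow _ _).trans (Nat.pow_le_pow_right (by norm_num) h)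

lemma mahler_le (p : ℂ[X]) {N : ℕ} (h : p.natDegree ≤ N) {B : ℝ} (hB : ∀ m, ‖p.coeff m‖ ≤ B) :
    p.mahlerMeasure ≤ (N + 1) * B := by
  refine p.mahlerMeasure_le_sum_norm_coeff.trans ?_
  rw [Polynomial.sum_def]
  refine (Finset.sum_le_card_nsmul _ _ B fun m _ => hB m).trans ?_
  rw [nsmul_eq_mul]
  refine mul_le_mul_of_nonneg_right ?_ ((norm_nonneg _).trans (hB 0))
  exact_mod_cast p.card_supp_le_succ_natDegree.trans (Nat.succ_le_succ h)

lemma prod_le (g Q : ℂ[X]) {n D : ℕ} (hg : g.natDegree ≤ D) (hQ : Q.natDegree ≤ n) {B : ℝ}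
    (hB : ∀ m, ‖(g * Q).coeff m‖ ≤ B) (a b : ℕ) :
    ‖g.coeff a‖ * ‖Q.coeff b‖ ≤ 2 ^ (n + D) * (n + D + 1) * B := by
  have h1 := mahler_le (g * Q) (N := n + D)
    (Polynomial.natDegree_mul_le.trans (by omega)) hB
  rw [Polynomial.mahlerMeasure_mul] at h1
  have hM := g.mahlerMeasure_nonneg
  calc _ ≤ (2 ^ D * g.mahlerMeasure) * (2 ^ n * Q.mahlerMeasure) :=
        mul_le_mul (coef_le g hg a) (coef_le Q hQ b) (norm_nonneg _) (by positivity)
    _ = 2 ^ (n + D) * (g.mahlerMeasure * Q.mahlerMeasure) := by ring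
    _ ≤ 2 ^ (n + D) * ((n + D + 1) * B) :=
        mul_le_mul_of_nonneg_left (by exact_mod_cast h1) (by positivity)
    _ = _ := by ring

lemma sc_coeff (p : ℂ[X]) {s : ℝ} (hs : 0 ≤ s) (m : ℕ) :
    ‖(p.comp (Polynomial.C (s : ℂ) * Polynomial.X)).coeff m‖ = ‖p.coeff m‖ * s ^ m := by
  rw [Polynomial.comp_C_mul_X_coeff, norm_mul, norm_pow, Complex.norm_real, Real.norm_of_nonneg hs]

lemma sc_deg (p : ℂ[X]) (s : ℂ) {n : ℕ} (h : p.natDegree ≤ n) :
    (p.comp (Polynomial.C s * Polynomial.X)).natDegree ≤ n := by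
  rw [Polynomial.natDegree_le_iff_coeff_eq_zero] at h ⊢
  intro m hm
  rw [Polynomial.comp_C_mul_X_coeff, h m hm, zero_mul]

end LowL

open LowL

theorem low : Low := by
  intro n D
  obtain ⟨A, hA⟩ : ∃ A : ℝ, A = 2 ^ (n + D) * (n + D + 1) := ⟨_, rfl⟩
  have A0 : 0 < A := by rw [hA]; positivity
  obtain ⟨L, hL⟩ : ∃ L : ℝ, L = 2 * n * A + 1 := ⟨_, rfl⟩
  have nA : 0 ≤ n * A := by positivity
  have L1 : 1 ≤ L := by rw [hL]; linarith
  refine ⟨n + D + 1, 1 / (2 * A * L ^ (n + D)), by positivity, ?_⟩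
  rintro δ η g Q d0 d1 hg hQ ⟨a, ha⟩ h m
  have η0 : 0 ≤ η := (norm_nonneg _).trans (h 0)
  obtain ⟨s, hs⟩ : ∃ s : ℝ, s = L / δ := ⟨_, rfl⟩
  have s1 : 1 ≤ s := by rw [hs, le_div_iff₀ d0]; linarith
  have s0 : 0 < s := by linarith
  obtain ⟨b, -, hb⟩ := Finset.exists_max_image (Finset.range (n + 1))
    (fun m => ‖Q.coeff m‖ * s ^ m) ⟨0, by simp⟩
  obtain ⟨q, hq⟩ : ∃ q, q = ‖Q.coeff b‖ * s ^ b := ⟨_, rfl⟩
  rw [← hq] at hb
  have q0 : 0 ≤ q := by rw [hq]; positivity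
  have hz := Polynomial.natDegree_le_iff_coeff_eq_zero.1 hQ
  have hm : ∀ m, ‖Q.coeff m‖ * s ^ m ≤ q := fun m => by
    by_cases c : m < n + 1
    · exact hb m (Finset.mem_range.2 c)
    · rw [hz m (by omega), norm_zero, zero_mul]; exact q0
  have hd : ∀ m, ‖(Polynomial.derivative Q).coeff m‖ * s ^ m ≤ n * q / s := fun m => by
    rw [Polynomial.coeff_derivative, le_div_iff₀ s0]
    by_cases c : m + 1 ≤ n
    · have e : ‖((m : ℂ) + 1)‖ = m + 1 := by exact_mod_cast Complex.norm_natCast (m + 1)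
      have c' : (m + 1 : ℝ) ≤ n := by exact_mod_cast c
      rw [norm_mul, e]
      calc _ = (m + 1) * (‖Q.coeff (m + 1)‖ * s ^ (m + 1)) := by ring
        _ ≤ n * q := mul_le_mul c' (hm _) (by positivity) (by positivity)
    · rw [hz _ (by omega)]
      simp only [zero_mul, norm_zero]
      positivity
  have key := prod_le _ _ (sc_deg g s hg) (sc_deg Q s hQ) (B := s ^ (n + D) * η + n * q / s)
    (fun m => by
      rw [← Polynomial.mul_comp, sc_coeff _ s0.le]
      by_cases c : m ≤ n + D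
      · have h1 : ‖(g * Q).coeff m‖ ≤ η + ‖(Polynomial.derivative Q).coeff m‖ := by
          have : (g * Q).coeff m = (Polynomial.derivative Q + g * Q).coeff m -
              (Polynomial.derivative Q).coeff m := by simp
          rw [this]
          exact (norm_sub_le _ _).trans (by linarith [h m])
        have h2 : s ^ m ≤ s ^ (n + D) := pow_le_pow_right₀ s1 c
        have h3 := mul_le_mul_of_nonneg_right h1 (pow_nonneg s0.le m)
        nlinarith [hd m, mul_le_mul_of_nonneg_right h2 η0]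
      · rw [Polynomial.coeff_eq_zero_of_natDegree_lt
          (Polynomial.natDegree_mul_le.trans_lt (by omega)), norm_zero, zero_mul]
        positivity) a b
  rw [sc_coeff _ s0.le, sc_coeff _ s0.le, ← hq, ← hA] at key
  have k1 : δ * q ≤ ‖g.coeff a‖ * s ^ a * q :=
    mul_le_mul_of_nonneg_right
      (ha.trans (le_mul_of_one_le_right (norm_nonneg _) (one_le_pow₀ s1))) q0
  have k2 : A * (n * q / s) ≤ δ * q / 2 := by
    rw [hs, div_div_eq_mul_div, ← mul_div_assoc, div_le_div_iff₀ (by linarith) (by norm_num), hL]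
    nlinarith [mul_nonneg d0.le q0]
  have k3 : δ * q ≤ 2 * A * (s ^ (n + D) * η) := by nlinarith
  have k4 : ‖Q.coeff m‖ ≤ q :=
    (le_mul_of_one_le_right (norm_nonneg _) (one_le_pow₀ s1)).trans (hm m)
  have k5 : δ ^ (n + D) * s ^ (n + D) = L ^ (n + D) := by
    rw [← mul_pow, hs, mul_div_cancel₀ _ d0.ne']
  rw [one_div, mul_assoc, inv_mul_le_iff₀ (by positivity), ← k5, pow_succ]
  have k6 := mul_le_mul_of_nonneg_left (mul_le_mul_of_nonneg_left k4 d0.le |>.trans k3)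
    (pow_nonneg d0.le (n + D))
  nlinarith

end Pool.Agent.MP_a8995d_an.ZD
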