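import Pool.Agent.MP_a8995d_an.ZD.Spec

/-! From relations to orbits. -/

namespace Pool.Agent.MP_a8995d_an.ZD

open PowerSeries Filter
open scoped Polynomial

namespace OpL

variable {E : Type} [NormedAddCommGroup E] [NormedSpace ℂ E]

lemma pow_b (T : E →L[ℂ] E) (b : ℕ → E) (h0 : T (b 0) = 0) (hs : ∀ n, T (b (n + 1)) = b n)
    (j n : ℕ) : (T ^ j) (b n) = if j ≤ n then b (n - j) else 0 := by
  induction j generalizing n with
  | zero => simp
  | succ j ih =>
    rw [pow_succ, mul_apply_eq_comp]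
    rcases n with _ | n
    · simp [h0]
    · rw [hs, ih]
      simp

lemma aeval_b (T : E →L[ℂ] E) (b : ℕ → E) (h0 : T (b 0) = 0) (hs : ∀ n, T (b (n + 1)) = b n)
    (g : ℂ[X]) (M n : ℕ) (hn : n < M) : Polynomial.aeval T g (b n) =
      ∑ c ∈ Finset.range M, (if c ≤ n then g.coeff (n - c) else 0) • b c := by
  induction g using Polynomial.induction_on' with
  | add p q hp hq =>
    rw [map_add, add_apply, hp, hq, ← Finset.sum_add_distrib]
    refine Finset.sum_congr rfl fun c _ => ?_
    rw [← add_smul]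
    split_ifs <;> simp
  | monomial j a =>
    rw [Polynomial.aeval_monomial, ← Algebra.smul_def, smul_apply,
      pow_b T b h0 hs]
    split_ifs with h
    · rw [Finset.sum_eq_single (n - j)]
      · rw [if_pos (Nat.sub_le _ _), Polynomial.coeff_monomial, if_pos (by omega)]
      · intro c _ hc
        split_ifs with h'
        · rw [Polynomial.coeff_monomial, if_neg (by omega), zero_smul]
        · rw [zero_smul]
      · intro hc
        exact absurd (Finset.mem_range.2 (by omega)) hc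
    · rw [smul_zero]
      refine (Finset.sum_eq_zero fun c _ => ?_).symm
      split_ifs with h'
      · rw [Polynomial.coeff_monomial, if_neg (by omega), zero_smul]
      · rw [zero_smul]

lemma rel_mono {N : ℕ} {G : Fin N → ℂ⟦X⟧} {M M' J : ℕ} {ε : ℝ} (h : Rel G M J ε) (hM : M ≤ M') :
    Rel G M' J ε := fun p h1 h2 => h p h1 fun m hm => h2 m (by omega)

lemma core (hLin : Lin) (T : E →L[ℂ] E) (b : ℕ → E) (h0 : T (b 0) = 0)
    (hs : ∀ n, T (b (n + 1)) = b n) {N : ℕ} (g : Fin N → ℂ[X]) (M J : ℕ) (ε : ℝ) (hε : 0 ≤ ε)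
    (u : Fin N → ℕ → ℂ) (hu : ∀ i c, J ≤ c → u i c = 0)
    (hR : Rel (fun i => (g i : ℂ⟦X⟧)) M J ε) :
    ∃ x, ∀ i, ‖Polynomial.aeval T (g i) x - ∑ c ∈ Finset.range M, u i c • b c‖ ≤
      ε * ((∑ i, ∑ c ∈ Finset.range J, ‖u i c‖) * ∑ c ∈ Finset.range M, ‖b c‖) := by
  obtain ⟨z, hz⟩ := hLin N M J _ ε u hε hR hu
  refine ⟨∑ n ∈ Finset.range M, z n • b n, fun i => ?_⟩
  have e : Polynomial.aeval T (g i) (∑ n ∈ Finset.range M, z n • b n) =
      ∑ c ∈ Finset.range M, (∑ n ∈ Finset.range M,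
        if c ≤ n then z n * coeff (n - c) (g i : ℂ⟦X⟧) else 0) • b c := by
    rw [map_sum]
    simp only [Finset.sum_smul]
    rw [Finset.sum_comm]
    refine Finset.sum_congr rfl fun n hn => ?_
    rw [map_smul, aeval_b T b h0 hs _ M n (Finset.mem_range.1 hn), Finset.smul_sum]
    refine Finset.sum_congr rfl fun c _ => ?_
    rw [smul_smul, Polynomial.coeff_coe]
    split_ifs <;> simp
  rw [e, ← Finset.sum_sub_distrib, ← mul_assoc, Finset.mul_sum]
  refine norm_sum_le_of_le _ fun c hc => ?_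
  rw [← sub_smul, norm_smul]
  exact mul_le_mul_of_nonneg_right (hz i c (Finset.mem_range.1 hc)) (norm_nonneg _)

end OpL

open Finset Topology in
theorem op (hLin : Lin) : Op := by
  intro E _ _ e w T hd hw h0 hs κ F N g hg U hU
  choose y hy hy' using fun i => hd.inter_open_nonempty (U i) (hU i).1 (hU i).2
  choose c hc using fun i => Finsupp.mem_span_range_iff_exists_finsupp.mp (hy' i)
  let W : ℕ → ℂ := fun r => ∏ i ∈ range r, (w (i + 1) : ℂ)
  have hW : ∀ r, W r ≠ 0 := fun r => prod_ne_zero_iff.mpr fun i _ => by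
    exact_mod_cast (hw (i + 1) (by omega)).ne'
  let f : ℕ → E := fun r => (W r)⁻¹ • e r
  have hf0 : T (f 0) = 0 := by simp [f, h0]
  have hfs : ∀ r, T (f (r + 1)) = f r := by
    intro r
    have h1 : (w (r + 1) : ℂ) ≠ 0 := by exact_mod_cast (hw (r + 1) (by omega)).ne'
    have h2 := hW r
    simp only [f, map_smul, hs, smul_smul, W, prod_range_succ] at h2 ⊢
    congr 1
    field_simp
  obtain ⟨J, hJ⟩ : ∃ J, ∀ l, ∀ r ∈ (c l).support, r < J :=
    ⟨(univ.sup fun i => (c i).support.sup id) + 1, fun l r hr =>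
      Nat.lt_succ_of_le ((le_sup (f := id) hr).trans
        (le_sup (f := fun i => (c i).support.sup id) (mem_univ l)))⟩
  obtain ⟨M, hM⟩ := hg J
  have e1 : ∀ l, ∑ r ∈ range (max M J), (W r * c l r) • f r = y l := by
    intro l
    rw [← hc l, Finsupp.sum_of_support_subset (s := range (max M J)) _ (fun r hr => ?_) _
      (by simp)]
    · refine sum_congr rfl fun r _ => ?_
      have h2 := hW r
      simp only [f, smul_smul]
      congr 1
      field_simp
    · exact mem_range.mpr ((hJ l r hr).trans_le (le_max_right _ _))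
  have hu : ∀ i r, J ≤ r → W r * c i r = 0 := fun i r hr => by
    rw [Finsupp.notMem_support_iff.1 fun h => absurd (hJ i r h) (by omega), mul_zero]
  choose η hη hb using fun i => Metric.isOpen_iff.1 (hU i).1 (y i) (hy i)
  have ht : Tendsto (fun ε : ℝ => ε * ((∑ i, ∑ r ∈ range J, ‖W r * c i r‖) *
      ∑ r ∈ range (max M J), ‖f r‖)) (𝓝[>] 0) (𝓝 0) := by
    refine Tendsto.mono_left ?_ nhdsWithin_le_nhds
    exact Continuous.tendsto' (by fun_prop) _ _ (zero_mul _)
  obtain ⟨ε, h1, h2⟩ := ((eventually_all.2 fun i => ht.eventually (gt_mem_nhds (hη i))).and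
    self_mem_nhdsWithin).exists
  filter_upwards [hM ε h2] with k hk
  obtain ⟨x, hx⟩ := OpL.core hLin T f hf0 hfs (fun i => g i k) (max M J) J ε (le_of_lt h2)
    (fun i r => W r * c i r) hu (OpL.rel_mono hk (le_max_left _ _))
  refine ⟨x, fun i => hb i ?_⟩
  rw [mem_ball_iff_norm, ← e1 i]
  exact (hx i).trans_lt (h1 i)

end Pool.Agent.MP_a8995d_an.ZD
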