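import Pool.Agent.MP_a8995d_an.ZD.Spec

/-! Quantitative independence of exponentials of polynomials. -/

namespace Pool.Agent.MP_a8995d_an.ZD

open PowerSeries Filter
open scoped Polynomial

namespace QE

/-- Iterates of `Q ↦ Q' + g Q`. -/
noncomputable def it (g Q : ℂ[X]) : ℕ → ℂ[X]
  | 0 => Q
  | t + 1 => Polynomial.derivative (it g Q t) + g * it g Q t

lemma it_deg {g Q : ℂ[X]} {d D : ℕ} (hg : g.natDegree ≤ D) (hQ : Q.natDegree ≤ d) (t : ℕ) :
    (it g Q t).natDegree ≤ d + t * D := by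
  induction t with
  | zero => simpa [it] using hQ
  | succ t ih =>
    rw [it]
    refine (Polynomial.natDegree_add_le _ _).trans (max_le ?_ ?_)
    · have := Polynomial.natDegree_derivative_le (it g Q t)
      have e : (t + 1) * D = t * D + D := by ring
      omega
    · have := Polynomial.natDegree_mul_le (p := g) (q := it g Q t)
      have e : (t + 1) * D = t * D + D := by ring
      omega

lemma it_zero (Q : ℂ[X]) (t : ℕ) : it 0 Q t = Polynomial.derivative^[t] Q := by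
  induction t with
  | zero => rfl
  | succ t ih => rw [it, ih, Function.iterate_succ_apply', zero_mul, add_zero]

lemma step {ι : Type} (Γ : Finset ι) (H Q : ι → ℂ[X]) (h : ℂ[X]) (t : ℕ) :
    ∑ x ∈ Γ, (it (H x - h) (Q x) (t + 1) : ℂ⟦X⟧) * Ex (H x : ℂ⟦X⟧) =
      d⁄dX ℂ (∑ x ∈ Γ, (it (H x - h) (Q x) t : ℂ⟦X⟧) * Ex (H x : ℂ⟦X⟧)) -
        (h : ℂ⟦X⟧) * ∑ x ∈ Γ, (it (H x - h) (Q x) t : ℂ⟦X⟧) * Ex (H x : ℂ⟦X⟧) := by
  rw [map_sum, Finset.mul_sum, ← Finset.sum_sub_distrib]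
  refine Finset.sum_congr rfl fun x _ => ?_
  rw [Derivation.leibniz, Ex_deriv, PowerSeries.derivative_coe, it, Polynomial.coe_add,
    Polynomial.coe_mul, Polynomial.coe_sub]
  simp only [smul_eq_mul]
  ring

lemma mul_bd {a b : ℂ⟦X⟧} {m : ℕ} {η : ℝ} (ha : ∀ j ≤ m, ‖coeff j a‖ ≤ 1)
    (hb : ∀ j ≤ m, ‖coeff j b‖ ≤ η) : ‖coeff m (a * b)‖ ≤ (m + 1) * η := by
  rw [coeff_mul_range]
  have : ‖∑ j ∈ Finset.range (m + 1), coeff j a * coeff (m - j) b‖ ≤
      ∑ _j ∈ Finset.range (m + 1), η := by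
    refine norm_sum_le_of_le _ fun j hj => ?_
    have hj := Finset.mem_range.mp hj
    rw [norm_mul]
    have h1 := ha j (by omega)
    have h2 := hb (m - j) (by omega)
    nlinarith [norm_nonneg (coeff j a), norm_nonneg (coeff (m - j) b)]
  rw [Finset.sum_const, Finset.card_range, nsmul_eq_mul] at this
  push_cast at this
  exact this

lemma co_bd {ι : Type} (Γ : Finset ι) (H Q : ι → ℂ[X]) (h : ℂ[X]) (M : ℕ) (η : ℝ) (hη : 0 ≤ η)
    (hh : ∀ m, ‖h.coeff m‖ ≤ 1)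
    (h0 : ∀ m < M, ‖coeff m (∑ a ∈ Γ, (Q a : ℂ⟦X⟧) * Ex (H a : ℂ⟦X⟧))‖ ≤ η) (t : ℕ) :
    ∀ m, m + t < M → ‖coeff m (∑ x ∈ Γ, (it (H x - h) (Q x) t : ℂ⟦X⟧) * Ex (H x : ℂ⟦X⟧))‖ ≤
      (2 * M) ^ t * η := by
  induction t with
  | zero => intro m hm; simpa [it] using h0 m (by omega)
  | succ t ih =>
    intro m hm
    rw [step, map_sub, coeff_derivative]
    have e1 := ih (m + 1) (by omega)
    have e2 := mul_bd (a := (h : ℂ⟦X⟧)) (m := m) (fun j _ => by rw [Polynomial.coeff_coe]; exact hh j)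
      (fun j hj => ih j (by omega))
    have h2 : ‖(m : ℂ) + 1‖ = m + 1 := by exact_mod_cast Complex.norm_natCast (m + 1)
    have h3 : (m : ℝ) + 1 ≤ M := by exact_mod_cast (by omega : m + 1 ≤ M)
    have h4 : 0 ≤ (2 * (M : ℝ)) ^ t * η := by positivity
    refine (norm_sub_le _ _).trans ?_
    rw [norm_mul, h2, pow_succ]
    have e3 := mul_le_mul_of_nonneg_right e1 (by positivity : (0 : ℝ) ≤ m + 1)
    have e4 := mul_le_mul_of_nonneg_right h3 h4
    nlinarith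

lemma down {g Q : ℂ[X]} {d D : ℕ} {r : ℝ} (hr : 0 < r) (hg : g.natDegree ≤ D)
    (hQ : Q.natDegree ≤ d)
    (hL : ∀ (η : ℝ) (P : ℂ[X]), P.natDegree ≤ d + (d + 1) * D →
      (∀ m, ‖(Polynomial.derivative P + g * P).coeff m‖ ≤ η) → ∀ m, r * ‖P.coeff m‖ ≤ η)
    (t : ℕ) (ht : t ≤ d + 1) :
    ∀ η : ℝ, (∀ m, ‖(it g Q t).coeff m‖ ≤ η) → ∀ m, r ^ t * ‖Q.coeff m‖ ≤ η := by
  induction t with
  | zero => intro η h m; simpa [it] using h m
  | succ t ih =>
    intro η h m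
    have e1 := hL η (it g Q t) ((it_deg hg hQ t).trans
      (Nat.add_le_add_left (Nat.mul_le_mul_right _ (by omega)) _)) h
    have e2 := ih (by omega) (η / r) (fun j => by rw [le_div_iff₀ hr, mul_comm]; exact e1 j) m
    rw [le_div_iff₀ hr] at e2
    rw [pow_succ]
    linarith [mul_right_comm (r ^ t) r ‖Q.coeff m‖]

lemma single {H Q : ℂ[X]} {d M : ℕ} {η : ℝ} (hη : 0 ≤ η) (hM : d + 1 ≤ M) (hQ : Q.natDegree ≤ d)
    (hH : ∀ m, ‖H.coeff m‖ ≤ 1)
    (h0 : ∀ m < M, ‖coeff m ((Q : ℂ⟦X⟧) * Ex (H : ℂ⟦X⟧))‖ ≤ η) (m : ℕ) :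
    ‖Q.coeff m‖ ≤ M * η := by
  by_cases hm : d < m
  · rw [Polynomial.coeff_eq_zero_of_natDegree_lt (by omega), norm_zero]
    positivity
  have e : (Q : ℂ⟦X⟧) = Ex (-(H : ℂ⟦X⟧)) * ((Q : ℂ⟦X⟧) * Ex (H : ℂ⟦X⟧)) := by
    rw [mul_left_comm, ← Ex_add, neg_add_cancel, Ex_zero, mul_one]
  have b := Ex_bound (-(H : ℂ⟦X⟧)) 1 zero_le_one m (fun j _ => by
    rw [map_neg, norm_neg, Polynomial.coeff_coe, one_pow]; exact hH j)
  have := mul_bd (m := m) (fun j hj => (b j hj).trans_eq (one_pow j))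
    (fun j hj => h0 j (by omega))
  rw [← e, Polynomial.coeff_coe] at this
  have h3 : (m : ℝ) + 1 ≤ M := by exact_mod_cast (by omega : m + 1 ≤ M)
  exact this.trans (mul_le_mul_of_nonneg_right h3 hη)

end QE

theorem qe (hLow : Low) : QE := by
  classical
  intro N d D
  induction N generalizing d with
  | zero =>
    refine ⟨0, 0, 1, one_pos, fun ι Γ H Q δ η hc _ _ _ _ _ a ha => ?_⟩
    have := Finset.card_pos.2 ⟨a, ha⟩
    omega
  | succ N ih =>
    obtain ⟨K0, c0, hc0, hL⟩ := hLow (d + (d + 1) * D) D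
    obtain ⟨M', K', c', hc', hI⟩ := ih (d + (d + 1) * D)
    obtain ⟨M, hM⟩ : ∃ M, M = M' + d + 1 := ⟨_, rfl⟩
    have M0 : (0 : ℝ) < M := by exact_mod_cast (by omega : 0 < M)
    refine ⟨M, K' + K0 * (d + 1), min (1 / M) (c' * c0 ^ (d + 1) / (2 * M) ^ (d + 1)),
      lt_min (by positivity) (by positivity), fun ι Γ H Q δ η hc d0 d1 h1 h2 h3 a ha m => ?_⟩
    have hη : 0 ≤ η := (norm_nonneg _).trans (h3 0 (by omega))
    have nn := norm_nonneg ((Q a).coeff m)
    by_cases hb : ∃ b ∈ Γ, b ≠ a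
    · obtain ⟨b, hb, hba⟩ := hb
      have dg : ∀ x ∈ Γ, (H x - H b).natDegree ≤ D := fun x hx =>
        (Polynomial.natDegree_sub_le _ _).trans (max_le (h1 x hx).1 (h1 b hb).1)
      have e1 := QE.co_bd Γ H Q (H b) M η hη (h1 b hb).2.2 h3 (d + 1)
      have e2 : QE.it (H b - H b) (Q b) (d + 1) = 0 := by
        rw [sub_self, QE.it_zero]
        exact Polynomial.iterate_derivative_eq_zero (Nat.lt_succ_of_le (h1 b hb).2.1)
      rw [← Finset.add_sum_erase Γ _ hb, e2, Polynomial.coe_zero, zero_mul, zero_add] at e1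
      have e3 := hI ι (Γ.erase b) H (fun x => QE.it (H x - H b) (Q x) (d + 1)) δ
        ((2 * M) ^ (d + 1) * η) (by rw [Finset.card_erase_of_mem hb]; omega) d0 d1
        (fun x hx => by
          have hx := Finset.mem_of_mem_erase hx
          exact ⟨(h1 x hx).1, QE.it_deg (dg x hx) (h1 x hx).2.1 _, (h1 x hx).2.2⟩)
        (fun x hx y hy => h2 x (Finset.mem_of_mem_erase hx) y (Finset.mem_of_mem_erase hy))
        (fun j hj => e1 j (by omega)) a (Finset.mem_erase.2 ⟨hba.symm, ha⟩)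
      have p1 : 0 < c' * δ ^ K' := by positivity
      have e4 := QE.down (r := c0 * δ ^ K0) (by positivity) (dg a ha) (h1 a ha).2.1
        (fun η' P hP hh => hL δ η' _ P d0 d1 (dg a ha) hP (h2 a ha b hb hba.symm) hh)
        (d + 1) le_rfl ((2 * M) ^ (d + 1) * η / (c' * δ ^ K'))
        (fun j => by rw [le_div_iff₀ p1, mul_comm]; exact e3 j) m
      rw [le_div_iff₀ p1] at e4
      have p2 : (0 : ℝ) < (2 * M) ^ (d + 1) := by positivity
      refine le_trans (mul_le_mul_of_nonneg_right (mul_le_mul_of_nonneg_right (min_le_right _ _)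
        (by positivity)) nn) ?_
      rw [div_mul_eq_mul_div, div_mul_eq_mul_div, div_le_iff₀ p2]
      refine le_trans (le_of_eq ?_) (e4.trans_eq (mul_comm _ _))
      rw [mul_pow, pow_add δ, pow_mul δ]
      ring
    · have e0 : Γ = {a} := Finset.eq_singleton_iff_unique_mem.2 ⟨ha, fun x hx => by
        by_contra k
        exact hb ⟨x, hx, k⟩⟩
      subst e0
      simp only [Finset.sum_singleton] at h3
      have e1 := QE.single hη (by omega) (h1 a ha).2.1 (h1 a ha).2.2 h3 m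
      have e2 : δ ^ (K' + K0 * (d + 1)) ≤ 1 := pow_le_one₀ d0.le d1
      refine le_trans (mul_le_mul_of_nonneg_right (mul_le_mul (min_le_left _ _) e2
        (by positivity) (by positivity)) nn) ?_
      rw [mul_one, one_div, inv_mul_le_iff₀ M0]
      exact e1

end Pool.Agent.MP_a8995d_an.ZD
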