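import Pool.Agent.MP_a8995d_an.ZD.Clu
import Pool.Agent.MP_a8995d_an.ZD.Low
import Pool.Agent.MP_a8995d_an.ZD.QE
import Pool.Agent.MP_a8995d_an.ZD.Ind
import Pool.Agent.MP_a8995d_an.ZD.Lin
import Pool.Agent.MP_a8995d_an.ZD.Op

/-! Assembly. -/

namespace Pool.Agent.MP_a8995d_an.ZD

open PowerSeries Filter
open scoped Polynomial

lemma Ex_nsmul (n : ℕ) (l : ℂ⟦X⟧) : Ex ((n : ℂ) • l) = Ex l ^ n := by
  induction n with
  | zero => simp [Ex_zero]
  | succ n ih => rw [Nat.cast_succ, add_smul, one_smul, Ex_add, ih, pow_succ]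

lemma Ex_sum {ι : Type} (s : Finset ι) (l : ι → ℂ⟦X⟧) : Ex (∑ i ∈ s, l i) = ∏ i ∈ s, Ex (l i) := by
  classical
  induction s using Finset.induction_on with
  | empty => simp [Ex_zero]
  | insert a s ha ih => rw [Finset.sum_insert ha, Finset.prod_insert ha, Ex_add, ih]

lemma Rel.unit {N M J : ℕ} {ε : ℝ} {G : Fin N → ℂ⟦X⟧} (h : Rel G M J ε) (c : Fin N → ℂ)
    (hc : ∀ i, ‖c i‖ = 1) : Rel (fun i => C (c i) * G i) M J ε := by
  intro p hp hr i j hj
  have h1 := h (fun i => C (c i) * p i) (fun i m => by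
    rw [coeff_C_mul, norm_mul, hc, one_mul]
    exact hp i m) (fun m hm => by
    rw [← hr m hm]
    congr 1
    exact Finset.sum_congr rfl fun i _ => by ring) i j hj
  rwa [coeff_C_mul, norm_mul, hc, one_mul] at h1

variable {E : Type} [NormedAddCommGroup E] [NormedSpace ℂ E]

theorem forward (e : ℕ → E) (he : Dense (Submodule.span ℂ (Set.range e) : Set E)) (w : ℕ → ℝ)
    (hw : ∀ n, 1 ≤ n → 0 < w n) (T : E →L[ℂ] E) (h0 : T (e 0) = 0)
    (hs : ∀ n, T (e (n + 1)) = (w (n + 1) : ℂ) • e n) (d : ℕ) (f : Fin d → ℂ[X])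
    (hf : ∀ l, ‖(f l).eval 0‖ = 1)
    (hi : ∀ (a b : Fin d → ℕ) (c : ℂ),
      ∏ l, f l ^ a l = Polynomial.C c * ∏ l, f l ^ b l → a = b)
    (N : ℕ) (U : Fin N → Set E) (hU : ∀ i, IsOpen (U i) ∧ (U i).Nonempty) :
    ∃ R : ℕ, ∀ n : Fin N → Fin d → ℕ,
      (∀ i j, i ≠ j → ∃ l, n i l + R ≤ n j l ∨ n j l + R ≤ n i l) →
      ∃ x, ∀ i, Polynomial.aeval T (∏ l, f l ^ n i l) x ∈ U i := by
  by_contra hc
  push Not at hc
  choose n hn hx using hc
  obtain ⟨μ, D, B, hB, hμ, hb⟩ := ind d f (fun l h => by simpa [h] using hf l) hi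
  set L : Fin N → ℕ → ℂ⟦X⟧ := fun i k => ∑ l, (n k i l : ℂ) • μ l with hL
  have hsub : ∀ i j k, L i k - L j k = ∑ l, ((n k i l : ℂ) - n k j l) • μ l := by
    intro i j k
    simp only [hL, sub_smul, Finset.sum_sub_distrib]
  have hle : ((hyperfilter ℕ : Ultrafilter ℕ) : Filter ℕ) ≤ atTop := Nat.hyperfilter_le_atTop
  have h1 := clu (qe low) ℕ (hyperfilter ℕ) N D (fun m => B * ∑ l, ‖coeff m (μ l)‖) L
    (fun i j k m t ht => by
      rw [hsub] at ht ⊢
      rw [map_sum, mul_right_comm, Finset.mul_sum]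
      refine norm_sum_le_of_le _ fun l _ => ?_
      rw [coeff_smul, norm_smul]
      exact mul_le_mul_of_nonneg_right (hb _ t ht l) (norm_nonneg _))
    (fun i j hij t => by
      filter_upwards [hle ((tendsto_natCast_atTop_atTop (R := ℝ)).eventually_gt_atTop (B * t))]
        with k hk
      by_contra h
      push Not at h
      rw [hsub] at h
      obtain ⟨l, hl⟩ := hn k i j hij
      have h2 := hb _ t (fun m hm => (h m hm).le) l
      have h3 : ‖(n k i l : ℂ) - n k j l‖ = |(n k i l : ℝ) - n k j l| := by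
        rw [← Real.norm_eq_abs, ← Complex.norm_real]
        push_cast
        rfl
      rw [h3, abs_le] at h2
      rcases hl with hl | hl
      · have : (n k i l : ℝ) + k ≤ n k j l := by exact_mod_cast hl
        linarith [h2.1]
      · have : (n k j l : ℝ) + k ≤ n k i l := by exact_mod_cast hl
        linarith [h2.2])
  have h2 := op lin E e w T he hw h0 hs ℕ (hyperfilter ℕ) N (fun i k => ∏ l, f l ^ n k i l)
    (fun J => by
      obtain ⟨M, hM⟩ := h1 J
      refine ⟨M, fun ε hε => (hM ε hε).mono fun k hk => ?_⟩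
      have h3 := hk.unit (fun i => ∏ l, (f l).eval 0 ^ n k i l) fun i => by
        simp [norm_prod, hf]
      convert h3 using 2 with i
      rw [← Polynomial.coeToPowerSeries.ringHom_apply, map_prod, hL, Ex_sum, map_prod,
        ← Finset.prod_mul_distrib]
      refine Finset.prod_congr rfl fun l _ => ?_
      rw [map_pow, map_pow, Ex_nsmul, ← mul_pow, ← hμ, Polynomial.coeToPowerSeries.ringHom_apply])
    U hU
  obtain ⟨k, x, h⟩ := h2.exists
  obtain ⟨i, hi⟩ := hx k x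
  exact hi (h i)

theorem backward [Nontrivial E] (T : E →L[ℂ] E) (d : ℕ) (f : Fin d → ℂ[X])
    (hf : ∀ l, ‖(f l).eval 0‖ = 1)
    (h : ∀ (N : ℕ) (U : Fin N → Set E), (∀ i, IsOpen (U i) ∧ (U i).Nonempty) →
      ∃ R : ℕ, ∀ n : Fin N → Fin d → ℕ,
        (∀ i j, i ≠ j → ∃ l, n i l + R ≤ n j l ∨ n j l + R ≤ n i l) →
        ∃ x, ∀ i, Polynomial.aeval T (∏ l, f l ^ n i l) x ∈ U i)
    (a b : Fin d → ℕ) (c : ℂ) (hc : ∏ l, f l ^ a l = Polynomial.C c * ∏ l, f l ^ b l) :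
    a = b := by
  by_contra hab
  obtain ⟨l, hl⟩ := Function.ne_iff.mp hab
  have hc1 : ‖c‖ = 1 := by
    have := congrArg (fun q : ℂ[X] => ‖q.eval 0‖) hc
    simpa [Polynomial.eval_prod, norm_prod, hf] using this.symm
  obtain ⟨R, hR⟩ := h 2 ![{x | ‖x‖ < 1}, {x | 1 < ‖x‖}] (by
    intro i
    fin_cases i
    · exact ⟨isOpen_lt continuous_norm continuous_const, 0, by simp⟩
    · exact ⟨isOpen_lt continuous_const continuous_norm, NormedSpace.exists_lt_norm ℂ E 1⟩)
  have hl' : a l * R + R ≤ b l * R ∨ b l * R + R ≤ a l * R := by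
    rcases lt_or_gt_of_ne hl with h1 | h1
    · exact Or.inl (by nlinarith)
    · exact Or.inr (by nlinarith)
  obtain ⟨x, hx⟩ := hR ![fun l => a l * R, fun l => b l * R] (by
    intro i j hij
    fin_cases i <;> fin_cases j
    · exact absurd rfl hij
    · exact ⟨l, hl'⟩
    · exact ⟨l, hl'.symm⟩
    · exact absurd rfl hij)
  have h0 : ‖Polynomial.aeval T (∏ l, f l ^ (a l * R)) x‖ < 1 := hx 0
  have h1 : 1 < ‖Polynomial.aeval T (∏ l, f l ^ (b l * R)) x‖ := hx 1
  simp only [pow_mul, Finset.prod_pow] at h0 h1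
  rw [hc, mul_pow, ← map_pow, ← Polynomial.smul_eq_C_mul, map_smul,
    smul_apply, norm_smul, norm_pow, hc1, one_pow, one_mul] at h0
  linarith

end Pool.Agent.MP_a8995d_an.ZD
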