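import Mathlib

/-! Mixing of all orders for several polynomials in a backward shift: the exponential of a
primitive of a power series, its basic properties, and the statements of the parts. -/

namespace Pool.Agent.MP_a8995d_an.ZD

open PowerSeries Filter
open scoped Polynomial

/-- Coefficients of the solution of `F' = l F`, `F(0) = 1`. -/
noncomputable def exc (l : ℂ⟦X⟧) : ℕ → ℂ
  | 0 => 1
  | m + 1 => (∑ j : Fin (m + 1), coeff j l * exc l (m - j)) / (m + 1)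
  decreasing_by omega

/-- The solution of `F' = l F`, `F(0) = 1`. -/
noncomputable def Ex (l : ℂ⟦X⟧) : ℂ⟦X⟧ := mk (exc l)

lemma Ex_coeff_zero (l : ℂ⟦X⟧) : coeff 0 (Ex l) = 1 := by
  simp [Ex, exc]

lemma coeff_mul_range (a b : ℂ⟦X⟧) (m : ℕ) :
    coeff m (a * b) = ∑ j ∈ Finset.range (m + 1), coeff j a * coeff (m - j) b := by
  rw [coeff_mul, Finset.Nat.sum_antidiagonal_eq_sum_range_succ_mk]

lemma Ex_deriv (l : ℂ⟦X⟧) : d⁄dX ℂ (Ex l) = l * Ex l := by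
  ext m
  have h : ((m : ℂ) + 1) ≠ 0 := by exact_mod_cast Nat.succ_ne_zero m
  rw [coeff_derivative, coeff_mul_range, Finset.sum_range]
  simp only [Ex, coeff_mk]
  rw [exc, div_mul_cancel₀ _ h]

lemma ode_zero {l F : ℂ⟦X⟧} (h : d⁄dX ℂ F = l * F) (h0 : coeff 0 F = 0) : F = 0 := by
  ext m
  induction m using Nat.strong_induction_on with
  | _ m ih =>
    rcases m with _ | m
    · simpa using h0
    · have h1 := congrArg (coeff m) h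
      have h2 : ((m : ℂ) + 1) ≠ 0 := by exact_mod_cast Nat.succ_ne_zero m
      rw [coeff_derivative, coeff_mul_range, Finset.sum_eq_zero] at h1
      · simpa [h2] using h1
      · intro j _
        rw [ih (m - j) (by omega)]
        simp

lemma Ex_uniq {l F : ℂ⟦X⟧} (h : d⁄dX ℂ F = l * F) : F = C (coeff 0 F) * Ex l := by
  rw [← sub_eq_zero]
  refine ode_zero (l := l) ?_ ?_
  · rw [map_sub, h, Derivation.leibniz, Ex_deriv, derivative_C]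
    simp only [smul_eq_mul]
    ring
  · rw [map_sub, coeff_C_mul, Ex_coeff_zero, mul_one, sub_self]

lemma Ex_add (a b : ℂ⟦X⟧) : Ex (a + b) = Ex a * Ex b := by
  have h : d⁄dX ℂ (Ex a * Ex b) = (a + b) * (Ex a * Ex b) := by
    rw [Derivation.leibniz, Ex_deriv, Ex_deriv]
    simp only [smul_eq_mul]
    ring
  have h0 : coeff 0 (Ex a * Ex b) = 1 := by
    rw [coeff_mul_range]
    simp [Ex_coeff_zero, -coeff_zero_eq_constantCoeff]
  rw [Ex_uniq h, h0, map_one, one_mul]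

lemma Ex_zero : Ex 0 = 1 := by
  have h : d⁄dX ℂ (1 : ℂ⟦X⟧) = 0 * 1 := by simp
  have := Ex_uniq h
  simpa using this.symm

/-- The majorant bound. -/
lemma Ex_bound (l : ℂ⟦X⟧) (t : ℝ) (ht : 0 ≤ t) (M : ℕ)
    (h : ∀ m < M, ‖coeff m l‖ ≤ t ^ (m + 1)) : ∀ m ≤ M, ‖coeff m (Ex l)‖ ≤ t ^ m := by
  intro m
  induction m using Nat.strong_induction_on with
  | _ m ih =>
    intro hm
    rcases m with _ | m
    · simp [Ex_coeff_zero, -coeff_zero_eq_constantCoeff]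
    · have h1 := congrArg (fun F => ‖coeff m F‖) (Ex_deriv l)
      have h2 : ‖(m : ℂ) + 1‖ = m + 1 := by exact_mod_cast Complex.norm_natCast (m + 1)
      simp only [coeff_derivative, norm_mul, h2, coeff_mul_range] at h1
      have h3 : ‖∑ j ∈ Finset.range (m + 1), coeff j l * coeff (m - j) (Ex l)‖ ≤
          ∑ _j ∈ Finset.range (m + 1), t ^ (m + 1) := by
        refine norm_sum_le_of_le _ fun j hj => ?_
        have hj := Finset.mem_range.mp hj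
        rw [norm_mul, show m + 1 = (j + 1) + (m - j) by omega, pow_add]
        exact mul_le_mul (h j (by omega)) (ih _ (by omega) (by omega)) (norm_nonneg _)
          (by positivity)
      rw [← h1, Finset.sum_const, Finset.card_range, nsmul_eq_mul, mul_comm] at h3
      push_cast at h3
      exact le_of_mul_le_mul_left h3 (by positivity)

lemma Ex_rescale (a : ℂ) (l : ℂ⟦X⟧) : rescale a (Ex l) = Ex (C a * rescale a l) := by
  have h : d⁄dX ℂ (rescale a (Ex l)) = C a * rescale a l * rescale a (Ex l) := by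
    rw [mul_assoc, ← map_mul, ← Ex_deriv]
    ext m
    simp only [coeff_derivative, coeff_rescale, coeff_C_mul]
    ring
  rw [Ex_uniq h, coeff_rescale, Ex_coeff_zero]
  simp

/-- A lower bound for the operator `Q ↦ Q' + g Q` on polynomials. -/
def Low : Prop := ∀ n D : ℕ, ∃ (K : ℕ) (c : ℝ), 0 < c ∧ ∀ (δ η : ℝ) (g Q : ℂ[X]), 0 < δ →
  δ ≤ 1 → g.natDegree ≤ D → Q.natDegree ≤ n → (∃ m, δ ≤ ‖g.coeff m‖) →
  (∀ m, ‖(Polynomial.derivative Q + g * Q).coeff m‖ ≤ η) → ∀ m, c * δ ^ K * ‖Q.coeff m‖ ≤ η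

/-- Quantitative independence of exponentials of polynomials. -/
def QE : Prop := ∀ N d D : ℕ, ∃ (M K : ℕ) (c : ℝ), 0 < c ∧ ∀ (ι : Type) (Γ : Finset ι)
  (H Q : ι → ℂ[X]) (δ η : ℝ), Γ.card ≤ N → 0 < δ → δ ≤ 1 →
  (∀ a ∈ Γ, (H a).natDegree ≤ D ∧ (Q a).natDegree ≤ d ∧ ∀ m, ‖(H a).coeff m‖ ≤ 1) →
  (∀ a ∈ Γ, ∀ b ∈ Γ, a ≠ b → ∃ m, δ ≤ ‖(H a - H b).coeff m‖) →
  (∀ m < M, ‖coeff m (∑ a ∈ Γ, (Q a : ℂ⟦X⟧) * Ex (H a : ℂ⟦X⟧))‖ ≤ η) →
  ∀ a ∈ Γ, ∀ m, c * δ ^ K * ‖(Q a).coeff m‖ ≤ η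

/-- Logarithmic derivatives of multiplicatively independent polynomials. -/
def Ind : Prop := ∀ (d : ℕ) (f : Fin d → ℂ[X]), (∀ l, (f l).eval 0 ≠ 0) →
  (∀ (a b : Fin d → ℕ) (c : ℂ), ∏ l, f l ^ a l = Polynomial.C c * ∏ l, f l ^ b l → a = b) →
  ∃ (μ : Fin d → ℂ⟦X⟧) (D : ℕ) (B : ℝ), 0 ≤ B ∧
    (∀ l, (f l : ℂ⟦X⟧) = C ((f l).eval 0) * Ex (μ l)) ∧
    ∀ (a : Fin d → ℂ) (t : ℝ), (∀ m ≤ D, ‖coeff m (∑ l, a l • μ l)‖ ≤ t) → ∀ l, ‖a l‖ ≤ B * t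

/-- Bounded relations modulo `X ^ M` among the series `G i` have small coefficients below `J`. -/
def Rel {N : ℕ} (G : Fin N → ℂ⟦X⟧) (M J : ℕ) (ε : ℝ) : Prop :=
  ∀ p : Fin N → ℂ⟦X⟧, (∀ i m, ‖coeff m (p i)‖ ≤ 1) →
    (∀ m < M, coeff m (∑ i, p i * G i) = 0) → ∀ i, ∀ j < J, ‖coeff j (p i)‖ ≤ ε

/-- Finite-dimensional duality. -/
def Lin : Prop := ∀ (N M J : ℕ) (G : Fin N → ℂ⟦X⟧) (ε : ℝ) (u : Fin N → ℕ → ℂ), 0 ≤ ε →
  Rel G M J ε → (∀ i c, J ≤ c → u i c = 0) → ∃ z : ℕ → ℂ, ∀ i, ∀ c < M,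
    ‖(∑ n ∈ Finset.range M, if c ≤ n then z n * coeff (n - c) (G i) else 0) - u i c‖ ≤
      ε * ∑ i, ∑ c ∈ Finset.range J, ‖u i c‖

/-- From relations to orbits. -/
def Op : Prop := ∀ (E : Type) [NormedAddCommGroup E] [NormedSpace ℂ E] (e : ℕ → E) (w : ℕ → ℝ)
  (T : E →L[ℂ] E), Dense (Submodule.span ℂ (Set.range e) : Set E) → (∀ n, 1 ≤ n → 0 < w n) →
  T (e 0) = 0 → (∀ n, T (e (n + 1)) = (w (n + 1) : ℂ) • e n) →
  ∀ (κ : Type) (F : Filter κ) (N : ℕ) (g : Fin N → κ → ℂ[X]),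
  (∀ J, ∃ M, ∀ ε > 0, ∀ᶠ k in F, Rel (fun i => (g i k : ℂ⟦X⟧)) M J ε) →
  ∀ U : Fin N → Set E, (∀ i, IsOpen (U i) ∧ (U i).Nonempty) →
  ∀ᶠ k in F, ∃ x, ∀ i, Polynomial.aeval T (g i k) x ∈ U i

/-- Exponentials whose exponents drift apart along an ultrafilter. -/
def Clu : Prop := ∀ (κ : Type) (𝒰 : Ultrafilter κ) (N D : ℕ) (A : ℕ → ℝ)
  (l : Fin N → κ → ℂ⟦X⟧),
  (∀ i j k m (B : ℝ), (∀ m' ≤ D, ‖coeff m' (l i k - l j k)‖ ≤ B) →
    ‖coeff m (l i k - l j k)‖ ≤ A m * B) →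
  (∀ i j, i ≠ j → ∀ B : ℝ, ∀ᶠ k in (𝒰 : Filter κ), ∃ m ≤ D, B ≤ ‖coeff m (l i k - l j k)‖) →
  ∀ J, ∃ M, ∀ ε > 0, ∀ᶠ k in (𝒰 : Filter κ), Rel (fun i => Ex (l i k)) M J ε

end Pool.Agent.MP_a8995d_an.ZD
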