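import Pool.Agent.MP_a8995d_an.ZD.Spec

/-! One change of scale. -/

namespace Pool.Agent.MP_a8995d_an.ZD

open PowerSeries Filter
open scoped Polynomial

namespace Step

lemma mulb (a b : ℂ⟦X⟧) (m : ℕ) (x y : ℝ) (ha : ∀ j ≤ m, ‖coeff j a‖ ≤ x)
    (hb : ∀ j ≤ m, ‖coeff j b‖ ≤ y) : ‖coeff m (a * b)‖ ≤ (m + 1) * (x * y) := by
  rw [coeff_mul_range]
  refine (norm_sum_le_of_le _ (n := fun _ => x * y) fun j hj => ?_).trans (by simp)
  have hj := Finset.mem_range.mp hj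
  rw [norm_mul]
  exact mul_le_mul (ha j (by omega)) (hb _ (by omega)) (norm_nonneg _)
    ((norm_nonneg _).trans (ha 0 (by omega)))

lemma sumb {ι : Type} (s : Finset ι) (F : ι → ℂ⟦X⟧) (m N : ℕ) (x : ℝ) (hx : 0 ≤ x)
    (hN : s.card ≤ N) (h : ∀ i ∈ s, ‖coeff m (F i)‖ ≤ x) : ‖coeff m (∑ i ∈ s, F i)‖ ≤ N * x := by
  rw [map_sum]
  refine (norm_sum_le_of_le _ (n := fun _ => x) h).trans ?_
  rw [Finset.sum_const, nsmul_eq_mul]
  exact mul_le_mul_of_nonneg_right (by exact_mod_cast hN) hx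

lemma norm_rescale (s : ℝ) (hs : 0 < s) (F : ℂ⟦X⟧) (m : ℕ) :
    ‖coeff m (rescale ((s : ℂ)⁻¹) F)‖ = (s ^ m)⁻¹ * ‖coeff m F‖ := by
  rw [coeff_rescale, norm_mul, norm_pow, norm_inv, Complex.norm_real, Real.norm_of_nonneg hs.le,
    inv_pow]

end Step

open Step

theorem step {N D d M2 K : ℕ} {c : ℝ} (hc : 0 < c)
    (hQ : ∀ (ι : Type) (Γ : Finset ι) (H Q : ι → ℂ[X]) (δ η : ℝ), Γ.card ≤ N → 0 < δ → δ ≤ 1 →
      (∀ a ∈ Γ, (H a).natDegree ≤ D ∧ (Q a).natDegree ≤ d ∧ ∀ m, ‖(H a).coeff m‖ ≤ 1) →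
      (∀ a ∈ Γ, ∀ b ∈ Γ, a ≠ b → ∃ m, δ ≤ ‖(H a - H b).coeff m‖) →
      (∀ m < M2, ‖coeff m (∑ a ∈ Γ, (Q a : ℂ⟦X⟧) * Ex (H a : ℂ⟦X⟧))‖ ≤ η) →
      ∀ a ∈ Γ, ∀ m, c * δ ^ K * ‖(Q a).coeff m‖ ≤ η)
    (I : Finset (Fin N)) (ρ : Fin N → Fin N) (l p : Fin N → ℂ⟦X⟧) (i0 : Fin N) (v δ : ℝ)
    (r M1 : ℕ) (hv : 1 ≤ v) (hr : D + 2 ≤ r) (hρ : ∀ i ∈ I, ρ i ∈ I)
    (hb : ∀ i ∈ I, ∀ m ≤ D, ‖coeff m (l i - l i0)‖ ≤ (v ^ (r + 1)) ^ (m + 1))
    (ht : ∀ i ∈ I, ∀ m < M2 + M1, D < m → ‖coeff m (l i - l i0)‖ ≤ v * (v ^ (r + 1)) ^ (D + 1))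
    (hcl : ∀ i ∈ I, ∀ m ≤ D, ‖coeff m (l i - l (ρ i))‖ ≤ (v ^ r) ^ (m + 1))
    (hδ : 0 < δ) (hδ1 : δ ≤ 1) (hδK : (v ^ (r + 1))⁻¹ ≤ δ ^ K)
    (hsep : ∀ a ∈ I.image ρ, ∀ b ∈ I.image ρ, a ≠ b →
      ∃ m ≤ D, δ * (v ^ (r + 1)) ^ (m + 1) ≤ ‖coeff m (l a - l b)‖)
    (hp : ∀ i ∈ I, ∀ m, ‖coeff m (p i)‖ ≤ 1)
    (hrel : ∀ m < M2, ‖coeff m (∑ i ∈ I, p i * Ex (l i - l i0))‖ ≤ (v ^ d)⁻¹)
    (hcv : M1 * (1 + N * (M2 * (N * M2))) ≤ c * v) (hd : (r + 1) * (3 * M1 + 1) + 1 ≤ d) :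
    ∀ a ∈ I.image ρ, ∀ m < M1,
      ‖coeff m (∑ i ∈ I.filter (ρ · = a), p i * Ex (l i - l a))‖ ≤ ((v ^ (r + 1)) ^ M1)⁻¹ := by
  have hv0 : 0 < v := by linarith
  set s : ℝ := v ^ (r + 1) with hs
  have hs1 : 1 ≤ s := one_le_pow₀ hv
  have hs0 : 0 < s := by linarith
  have hΓ : ∀ a ∈ I.image ρ, a ∈ I := by
    intro a ha
    obtain ⟨i, hi, rfl⟩ := Finset.mem_image.mp ha
    exact hρ i hi
  have hcard : ∀ S : Finset (Fin N), S.card ≤ N := fun S => by simpa using S.card_le_univ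
  set t : Fin N → ℂ⟦X⟧ := fun a => (trunc (D + 1) (l a - l i0) : ℂ[X]) with htd
  have htc : ∀ a m, coeff m (t a) = if m ≤ D then coeff m (l a - l i0) else 0 := by
    intro a m
    simp only [htd, Polynomial.coeff_coe, coeff_trunc, Nat.lt_succ_iff]
  set H : Fin N → ℂ[X] := fun a =>
    trunc (D + 1) (C ((s : ℂ)⁻¹) * rescale ((s : ℂ)⁻¹) (l a - l i0)) with hH
  have hHc : ∀ a m, (H a).coeff m =
      if m ≤ D then ((s : ℂ)⁻¹) ^ (m + 1) * coeff m (l a - l i0) else 0 := by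
    intro a m
    simp only [hH, coeff_trunc, Nat.lt_succ_iff, coeff_C_mul, coeff_rescale]
    split_ifs
    · ring
    · rfl
  have hns : ∀ m, ‖((s : ℂ)⁻¹) ^ m‖ = (s ^ m)⁻¹ := fun m => by
    rw [norm_pow, norm_inv, Complex.norm_real, Real.norm_of_nonneg hs0.le, inv_pow]
  have hH1 : ∀ a ∈ I.image ρ, ∀ m, ‖(H a).coeff m‖ ≤ 1 := by
    intro a ha m
    rw [hHc]
    split_ifs with h
    · rw [norm_mul, hns, inv_mul_le_iff₀ (by positivity), mul_one]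
      exact hb a (hΓ a ha) m h
    · simp
  have hEH : ∀ a, rescale ((s : ℂ)⁻¹) (Ex (t a)) = Ex (H a : ℂ⟦X⟧) := by
    intro a
    rw [Ex_rescale]
    congr 1
    ext m
    rw [Polynomial.coeff_coe, hHc, coeff_C_mul, coeff_rescale, htc]
    split_ifs
    · ring
    · simp
  set q : Fin N → ℂ⟦X⟧ := fun a => ∑ i ∈ I.filter (ρ · = a), p i * Ex (l i - l i0 - t a) with hq
  have hsum : ∑ i ∈ I, p i * Ex (l i - l i0) = ∑ a ∈ I.image ρ, q a * Ex (t a) := by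
    rw [← Finset.sum_fiberwise_of_maps_to (g := ρ) fun i hi => Finset.mem_image_of_mem ρ hi]
    refine Finset.sum_congr rfl fun a _ => ?_
    rw [hq, Finset.sum_mul]
    refine Finset.sum_congr rfl fun i _ => ?_
    rw [mul_assoc, ← Ex_add, sub_add_cancel]
  have hqb : ∀ a, ∀ j < M2, ‖coeff j (q a)‖ ≤ N * (M2 * (v ^ r) ^ j) := by
    intro a j hj
    refine sumb _ _ _ _ _ (by positivity) (hcard _) fun i hi => ?_
    obtain ⟨hi, hia⟩ := Finset.mem_filter.mp hi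
    have h1 := Ex_bound (l i - l i0 - t a) (v ^ r) (by positivity) M2 fun m hm => by
      rw [map_sub, htc]
      split_ifs with h
      · rw [← map_sub, sub_sub_sub_cancel_right, ← hia]
        exact hcl i hi m h
      · rw [sub_zero]
        refine (ht i hi m (by omega) (by omega)).trans ?_
        rw [hs, ← pow_mul, ← pow_mul, ← pow_succ']
        refine pow_le_pow_right₀ hv ?_
        have : r * (D + 2) ≤ r * (m + 1) := Nat.mul_le_mul_left _ (by omega)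
        nlinarith
    refine (mulb _ _ j 1 ((v ^ r) ^ j) (fun m _ => hp i hi m) fun m hm =>
      (h1 m (by omega)).trans (pow_le_pow_right₀ (one_le_pow₀ hv) hm)).trans ?_
    rw [one_mul]
    exact mul_le_mul_of_nonneg_right (by exact_mod_cast hj) (by positivity)
  set Z : Fin N → ℂ⟦X⟧ := fun a => rescale ((s : ℂ)⁻¹) (q a) with hZ
  set Q : Fin N → ℂ[X] := fun a => trunc (d + 1) (Z a) with hQd
  have htail : ∀ a, ∀ j < M2, ‖coeff j (Z a - (Q a : ℂ⟦X⟧))‖ ≤ N * M2 * (v ^ d)⁻¹ := by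
    intro a j hj
    rw [map_sub, Polynomial.coeff_coe, hQd, coeff_trunc]
    split_ifs with h
    · rw [sub_self, norm_zero]
      positivity
    · rw [sub_zero, hZ, norm_rescale s hs0, inv_mul_le_iff₀ (by positivity)]
      refine (hqb a j hj).trans ?_
      have h1 : (v ^ r) ^ j * v ^ d ≤ s ^ j := by
        rw [hs, ← pow_mul, ← pow_mul, ← pow_add]
        exact pow_le_pow_right₀ hv (by nlinarith)
      rw [← le_div_iff₀ (by positivity), div_eq_mul_inv] at h1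
      calc (N : ℝ) * (M2 * (v ^ r) ^ j) = N * M2 * (v ^ r) ^ j := by ring
        _ ≤ N * M2 * (s ^ j * (v ^ d)⁻¹) := mul_le_mul_of_nonneg_left h1 (by positivity)
        _ = _ := by ring
  set η : ℝ := (1 + N * (M2 * (N * M2))) * (v ^ d)⁻¹ with hη
  have hmain := hQ (Fin N) (I.image ρ) H Q δ η (hcard _) hδ hδ1
    (fun a ha => ⟨Nat.lt_succ_iff.mp (natDegree_trunc_lt _ _),
      Nat.lt_succ_iff.mp (natDegree_trunc_lt _ _), hH1 a ha⟩)
    (fun a ha b hb' hab => by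
      obtain ⟨m, hm, h⟩ := hsep a ha b hb' hab
      refine ⟨m, ?_⟩
      rw [Polynomial.coeff_sub, hHc, hHc, if_pos hm, if_pos hm, ← mul_sub, ← map_sub,
        sub_sub_sub_cancel_right, norm_mul, hns, le_inv_mul_iff₀ (by positivity), mul_comm]
      exact h)
    (fun m hm => by
      have h1 : ∑ a ∈ I.image ρ, (Q a : ℂ⟦X⟧) * Ex (H a : ℂ⟦X⟧) =
          rescale ((s : ℂ)⁻¹) (∑ i ∈ I, p i * Ex (l i - l i0)) -
            ∑ a ∈ I.image ρ, (Z a - (Q a : ℂ⟦X⟧)) * Ex (H a : ℂ⟦X⟧) := by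
        rw [hsum, map_sum, ← Finset.sum_sub_distrib]
        refine Finset.sum_congr rfl fun a _ => ?_
        rw [map_mul, hEH]
        ring
      have h2 : ‖coeff m (rescale ((s : ℂ)⁻¹) (∑ i ∈ I, p i * Ex (l i - l i0)))‖ ≤ (v ^ d)⁻¹ := by
        rw [norm_rescale s hs0, inv_mul_le_iff₀ (by positivity)]
        exact (hrel m hm).trans (le_mul_of_one_le_left (by positivity) (one_le_pow₀ hs1))
      have h3 := sumb (I.image ρ) (fun a => (Z a - (Q a : ℂ⟦X⟧)) * Ex (H a : ℂ⟦X⟧)) m N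
        (M2 * (N * M2 * (v ^ d)⁻¹)) (by positivity) (hcard _) fun a ha => by
          have h4 := Ex_bound (H a : ℂ⟦X⟧) 1 zero_le_one M2 fun j _ => by
            rw [Polynomial.coeff_coe, one_pow]
            exact hH1 a ha j
          refine (mulb _ _ m _ 1 (fun j hj => htail a j (by omega)) fun j hj =>
            (h4 j (by omega)).trans (one_pow _).le).trans ?_
          rw [mul_one]
          exact mul_le_mul_of_nonneg_right (by exact_mod_cast hm) (by positivity)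
      rw [h1, map_sub]
      refine (norm_sub_le _ _).trans ((add_le_add h2 h3).trans (le_of_eq ?_))
      rw [hη]
      ring)
  intro a ha m hm
  have hM1 : M1 ≤ d := by nlinarith
  have hqs : ∀ j ≤ m, ‖coeff j (q a)‖ ≤ s ^ M1 * s * η / c := by
    intro j hj
    have h1 := hmain a ha j
    rw [hQd, coeff_trunc, if_pos (by omega), hZ, norm_rescale s hs0] at h1
    have h2 : c * s⁻¹ * ((s ^ M1)⁻¹ * ‖coeff j (q a)‖) ≤ η := by
      refine le_trans ?_ h1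
      have h3 : (s ^ M1)⁻¹ ≤ (s ^ j)⁻¹ :=
        inv_anti₀ (by positivity) (pow_le_pow_right₀ hs1 (by omega))
      gcongr
    rw [le_div_iff₀ hc]
    calc ‖coeff j (q a)‖ * c = s ^ M1 * s * (c * s⁻¹ * ((s ^ M1)⁻¹ * ‖coeff j (q a)‖)) := by
          field_simp
      _ ≤ _ := mul_le_mul_of_nonneg_left h2 (by positivity)
  have hback : ∑ i ∈ I.filter (ρ · = a), p i * Ex (l i - l a) =
      q a * Ex (t a - (l a - l i0)) := by
    rw [hq, Finset.sum_mul]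
    refine Finset.sum_congr rfl fun i _ => ?_
    rw [mul_assoc, ← Ex_add]
    congr 2
    ring
  have h5 := Ex_bound (t a - (l a - l i0)) s hs0.le M1 fun j hj => by
    rw [map_sub, htc]
    split_ifs with h
    · rw [sub_self, norm_zero]
      positivity
    · rw [zero_sub, norm_neg]
      refine (ht a (hΓ a ha) j (by omega) (by omega)).trans ?_
      rw [hs, ← pow_mul, ← pow_mul, ← pow_succ']
      refine pow_le_pow_right₀ hv ?_
      have : (r + 1) * (D + 2) ≤ (r + 1) * (j + 1) := Nat.mul_le_mul_left _ (by omega)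
      nlinarith
  rw [hback]
  refine (mulb _ _ m _ (s ^ M1) hqs fun j hj =>
    (h5 j (by omega)).trans (pow_le_pow_right₀ hs1 (by omega))).trans ?_
  have h6 : (m : ℝ) + 1 ≤ M1 := by exact_mod_cast hm
  have h7 : s ^ M1 * s ^ M1 * s ^ M1 * s * v ≤ v ^ d := by
    rw [← pow_add, ← pow_add, ← pow_succ, hs, ← pow_mul, ← pow_succ]
    exact pow_le_pow_right₀ hv (by nlinarith)
  have h8 : 0 ≤ η := by positivity
  calc ((m : ℝ) + 1) * (s ^ M1 * s * η / c * s ^ M1)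
      ≤ M1 * (s ^ M1 * s * η / c * s ^ M1) := by gcongr
    _ = M1 * (1 + N * (M2 * (N * M2))) * (s ^ M1 * s * s ^ M1 / c * (v ^ d)⁻¹) := by
        rw [hη]
        ring
    _ ≤ c * v * (s ^ M1 * s * s ^ M1 / c * (s ^ M1 * s ^ M1 * s ^ M1 * s * v)⁻¹) := by
        gcongr
    _ = (s ^ M1)⁻¹ := by field_simp

end Pool.Agent.MP_a8995d_an.ZD
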